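import Pool.Agent.H1.SobAvg.Ops

namespace Pool.Agent.H1.SobAvg

open Filter Topology
open scoped ENNReal NNReal

universe v

variable {G : Type*} [Group G] [TopologicalSpace G] {K : Subgroup G}
  {V : Type v} [AddCommGroup V] [Module ℂ V] {M : GKModule K V}
  {E : Type*} [NormedAddCommGroup E] [NormedSpace ℂ E]

namespace Globalization

variable (𝓔 : Globalization M E) (D : ℝ → V →ₗ[ℂ] V) {w : G → ℝ} {s : ℝ}

theorem sobolev_smul_le (a : ℂ) (x : E) : 𝓔.sobolev D s (a • x) ≤ ‖a‖ₑ * 𝓔.sobolev D s x := by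
  have hcl : ∀ y, (x, y) ∈ closure (Set.range fun v : V => (𝓔.ι v, 𝓔.ι (D s v))) →
      (a • x, a • y) ∈ closure (Set.range fun v : V => (𝓔.ι v, 𝓔.ι (D s v))) := by
    intro y hy
    have hc : Continuous fun p : E × E => (a • p.1, a • p.2) := by fun_prop
    refine closure_mono ?_ (image_closure_subset_closure_image hc ⟨(x, y), hy, rfl⟩)
    rintro _ ⟨_, ⟨v, rfl⟩, rfl⟩
    exact ⟨a • v, by simp⟩
  rcases eq_or_ne a 0 with rfl | ha
  · have h0 : ((0:E), (0:E)) ∈ closure (Set.range fun v : V => (𝓔.ι v, 𝓔.ι (D s v))) :=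
      subset_closure ⟨0, by simp⟩
    rw [zero_smul]
    refine (iInf₂_le (0:E) h0).trans ?_
    simp
  · unfold sobolev
    rw [ENNReal.mul_iInf_of_ne (by simpa using ha) enorm_ne_top]
    refine le_iInf fun y => ?_
    rw [ENNReal.mul_iInf_of_ne (by simpa using ha) enorm_ne_top]
    refine le_iInf fun hy => ?_
    refine (iInf₂_le (a • y) (hcl y hy)).trans ?_
    rw [enorm_smul]

theorem averageE_le (L : List (G × E)) :
    𝓔.averageE D w s (L.map fun a => a.2).sum ≤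
      (L.map fun a => ENNReal.ofReal (w a.1⁻¹) * 𝓔.sobolev D s (𝓔.ρ a.1 a.2)).sum := by
  unfold averageE
  exact (iInf_le _ L).trans (iInf_le _ rfl)

theorem averageE_zero : 𝓔.averageE D w s 0 = 0 := by
  have := 𝓔.averageE_le D (w := w) (s := s) []
  simpa using this

theorem averageE_add_le (x y : E) :
    𝓔.averageE D w s (x + y) ≤ 𝓔.averageE D w s x + 𝓔.averageE D w s y := by
  unfold averageE
  refine ENNReal.le_iInf₂_add_iInf₂ ?_
  intro L hL L' hL'
  refine (iInf₂_le (L ++ L') (by simp [hL, hL'])).trans ?_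
  simp

theorem averageE_le_sobolev (g : G) (x : E) :
    𝓔.averageE D w s (𝓔.ρ g⁻¹ x) ≤ ENNReal.ofReal (w g⁻¹) * 𝓔.sobolev D s x := by
  have h1 := 𝓔.averageE_le D (w := w) (s := s) [(g, 𝓔.ρ g⁻¹ x)]
  have h2 : 𝓔.ρ g (𝓔.ρ g⁻¹ x) = x := by
    rw [← mul_apply_eq_comp, ← map_mul, mul_inv_cancel, map_one]; rfl
  simpa [h2] using h1

theorem averageE_le_sobolev_one (x : E) :
    𝓔.averageE D w s x ≤ ENNReal.ofReal (w 1) * 𝓔.sobolev D s x := by
  have := 𝓔.averageE_le_sobolev D (w := w) (s := s) 1 x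
  simpa using this

theorem averageE_smul_le (a : ℂ) (x : E) :
    𝓔.averageE D w s (a • x) ≤ ‖a‖ₑ * 𝓔.averageE D w s x := by
  rcases eq_or_ne a 0 with rfl | ha
  · simp [averageE_zero]
  · conv_rhs => rw [averageE]
    rw [ENNReal.mul_iInf_of_ne (by simpa using ha) enorm_ne_top]
    refine le_iInf fun L => ?_
    rw [ENNReal.mul_iInf_of_ne (by simpa using ha) enorm_ne_top]
    refine le_iInf fun hL => ?_
    have h1 := 𝓔.averageE_le D (w := w) (s := s) (L.map fun p => (p.1, a • p.2))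
    have h2 : ((L.map fun p => (p.1, a • p.2)).map fun p : G × E => p.2).sum = a • x := by
      rw [← hL, List.smul_sum, List.map_map, List.map_map]
      rfl
    rw [h2] at h1
    refine h1.trans ?_
    rw [← List.sum_map_mul_left, List.map_map]
    refine List.sum_le_sum fun p _ => ?_
    simp only [Function.comp_apply, map_smul]
    calc ENNReal.ofReal (w p.1⁻¹) * 𝓔.sobolev D s (a • 𝓔.ρ p.1 p.2)
        ≤ ENNReal.ofReal (w p.1⁻¹) * (‖a‖ₑ * 𝓔.sobolev D s (𝓔.ρ p.1 p.2)) := by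
          gcongr; exact 𝓔.sobolev_smul_le D a _
      _ = _ := by ring

theorem averageE_rho_le (hw : IsWeight w) (h : G) (x : E) :
    𝓔.averageE D w s (𝓔.ρ h x) ≤ ENNReal.ofReal (w h) * 𝓔.averageE D w s x := by
  have hwh := hw.pos h
  conv_rhs => rw [averageE]
  rw [ENNReal.mul_iInf_of_ne (by simpa using hwh) ENNReal.ofReal_ne_top]
  refine le_iInf fun L => ?_
  rw [ENNReal.mul_iInf_of_ne (by simpa using hwh) ENNReal.ofReal_ne_top]
  refine le_iInf fun hL => ?_
  have h1 := 𝓔.averageE_le D (w := w) (s := s) (L.map fun p => (p.1 * h⁻¹, 𝓔.ρ h p.2))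
  have h2 : ((L.map fun p => (p.1 * h⁻¹, 𝓔.ρ h p.2)).map fun p : G × E => p.2).sum = 𝓔.ρ h x := by
    rw [← hL, map_list_sum, List.map_map, List.map_map]
    rfl
  rw [h2] at h1
  refine h1.trans ?_
  rw [← List.sum_map_mul_left, List.map_map]
  refine List.sum_le_sum fun p _ => ?_
  simp only [Function.comp_apply]
  have h3 : 𝓔.ρ (p.1 * h⁻¹) (𝓔.ρ h p.2) = 𝓔.ρ p.1 p.2 := by
    rw [← mul_apply_eq_comp, ← map_mul]; simp
  rw [h3, ← mul_assoc, ← ENNReal.ofReal_mul hwh.le]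
  gcongr
  have := hw.mul_le h p.1⁻¹
  simpa using this

theorem averageE_lower {F : E → ℝ≥0∞} (h0 : F 0 = 0) (hadd : ∀ x y, F (x + y) ≤ F x + F y)
    {C : ℝ≥0∞} (hC0 : C ≠ 0) (hC : C ≠ ⊤)
    (hF : ∀ g x, F x ≤ C * (ENNReal.ofReal (w g⁻¹) * 𝓔.sobolev D s (𝓔.ρ g x))) (x : E) :
    F x ≤ C * 𝓔.averageE D w s x := by
  unfold averageE
  rw [ENNReal.mul_iInf_of_ne hC0 hC]
  refine le_iInf fun L => ?_
  rw [ENNReal.mul_iInf_of_ne hC0 hC]
  refine le_iInf fun hL => ?_
  rw [← hL, ← List.sum_map_mul_left]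
  clear hL
  induction L with
  | nil => simp [h0]
  | cons p L ih =>
    simp only [List.map_cons, List.sum_cons]
    exact (hadd _ _).trans (add_le_add (hF _ _) ih)

end Globalization

end Pool.Agent.H1.SobAvg
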