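import Mathlib

namespace Pool.Agent.H1.SobAvg

open Filter Topology

/-- coefficients of `(1-y)^(-β)` -/
theorem exists_coeff (β : ℝ) (h0 : 0 ≤ β) (h1 : β ≤ 1) :
    ∃ c : ℕ → ℝ, c 0 = 1 ∧ (∀ n, 0 ≤ c n) ∧ (∀ n, c (n + 1) ≤ c n) ∧
      ∀ y : ℝ, 0 ≤ y → y < 1 → HasSum (fun n => c n * y ^ n) ((1 - y) ^ (-β)) := by
  have key : ∀ n : ℕ, Ring.choose (β + n - 1) n = ((ascPochhammer ℝ n).eval β) / n.factorial := by
    intro n
    rw [← Ring.multichoose_eq]
    have := Ring.factorial_nsmul_multichoose_eq_ascPochhammer β n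
    rw [Polynomial.ascPochhammer_smeval_eq_eval] at this
    rw [eq_div_iff (by positivity), ← this, nsmul_eq_mul, mul_comm]
  have hpos : ∀ n : ℕ, 0 ≤ (ascPochhammer ℝ n).eval β := by
    intro n
    induction n with
    | zero => simp
    | succ n ih =>
      rw [ascPochhammer_succ_eval]
      positivity
  refine ⟨fun n => ((ascPochhammer ℝ n).eval β) / n.factorial, by simp, ?_, ?_, ?_⟩
  · intro n
    have := hpos n
    positivity
  · intro n
    beta_reduce
    rw [ascPochhammer_succ_eval, Nat.factorial_succ]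
    push_cast
    have hn : (0:ℝ) < n.factorial := by positivity
    rw [div_le_div_iff₀ (by positivity) hn]
    have := hpos n
    nlinarith [mul_nonneg this hn.le]
  · intro y hy0 hy1
    have H := (Real.one_div_one_sub_rpow_hasFPowerSeriesOnBall_zero β).hasSum
      (y := y) (by
        simp [enorm_eq_nnnorm, ← NNReal.coe_lt_coe, abs_of_nonneg hy0, hy1])
    simp only [FormalMultilinearSeries.ofScalars_apply_eq', smul_eq_mul, zero_add] at H
    simp only [key] at H
    rw [Real.rpow_neg (by linarith), ← one_div]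
    exact H

end Pool.Agent.H1.SobAvg
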