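import Pool.Agent.H1.SobAvg.Compat

namespace Pool.Agent.H1.SobAvg

open Filter Topology
open scoped ENNReal NNReal

universe v

variable {G : Type*} [Group G] [TopologicalSpace G] [IsTopologicalGroup G] {K : Subgroup G}
  {V : Type v} [AddCommGroup V] [Module ℂ V] {M : GKModule K V}
  {E : Type*} [NormedAddCommGroup E] [NormedSpace ℂ E] [CompleteSpace E]
  {F : Type*} [NormedAddCommGroup F] [NormedSpace ℂ F] [CompleteSpace F]
  {κ : Type*} {b : Module.Basis κ ℂ V} {c : κ → ℝ}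
  {𝓔 : Globalization M E} {𝓕 : Globalization M F}
  {w : G → ℝ} {m : ℕ} {X : Fin m → (Multiplicative ℝ →ₜ* G)}
  {W : ℝ}

theorem average_compare (H : Ctx 𝓔 w X b c W) (H' : Ctx 𝓕 w X b c W)
    (hG : Subgroup.closure ((K : Set G) ∪
      {g | ∃ (X : Multiplicative ℝ →ₜ* G) (t : ℝ), X (Multiplicative.ofAdd t) = g}) = ⊤)
    {D : ℝ → V →ₗ[ℂ] V} (hD : IsSobolevFamily (casimir M X) D) {η s : ℝ} (hη : 0 ≤ η)
    (hs : 0 ≤ s) (hdom : Dominated 𝓕.nrm fun v => 𝓔.nrm (D η v)) :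
    ∃ C : ℝ≥0, ∀ v, 𝓕.averageE D w s (𝓕.ι v) ≤ C * 𝓔.averageE D w (s + η) (𝓔.ι v) := by
  obtain ⟨C0, hC0⟩ := hdom
  have hη2 : 0 ≤ η / 2 := by positivity
  have hs2 : 0 ≤ s / 2 := by positivity
  have hsη : 0 ≤ s + η := by positivity
  have hsη2 : 0 ≤ (s + η) / 2 := by positivity
  set C : ℝ≥0 := max 1 C0 with hC
  have hC1 : (1:ℝ≥0) ≤ C := le_max_left _ _
  have hL : ∀ v, ‖(𝓕.ι ∘ₗ fc b c (ap (-(η / 2)))) v‖ ≤ (C : ℝ) * ‖𝓔.ι v‖ := by
    intro v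
    have h1 := hC0 (fc b c (ap (-(η / 2))) v)
    simp only [Globalization.nrm] at h1
    rw [D_eq H.cas hD, fc_ap_ap_neg H.nonneg] at h1
    have h2 := ENNReal.toReal_mono (ENNReal.mul_ne_top ENNReal.coe_ne_top enorm_ne_top) h1
    rw [ENNReal.toReal_mul, toReal_enorm, toReal_enorm, ENNReal.coe_toReal] at h2
    refine h2.trans ?_
    have : (C0 : ℝ) ≤ C := by exact_mod_cast le_max_right _ _
    gcongr
  set J : E →L[ℂ] F := (𝓕.ι ∘ₗ fc b c (ap (-(η / 2)))).extendOfNorm 𝓔.ι with hJdef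
  have hJ : ∀ v, J (𝓔.ι v) = 𝓕.ι (fc b c (ap (-(η / 2))) v) := fun v =>
    LinearMap.extendOfNorm_eq 𝓔.denseRange_ι ⟨_, hL⟩ v
  have hJn : ∀ x, ‖J x‖ ≤ C * ‖x‖ := fun x =>
    LinearMap.norm_extendOfNorm_apply_le 𝓔.denseRange_ι _ hL x
  have hgrJ : ∀ x ∈ gr 𝓔 𝓕, J x.1 = Top 𝓕 b c (ap (-(η / 2))) x.2 := by
    intro x hx
    refine gr_induction (p := fun x : E × F => J x.1 = Top 𝓕 b c (ap (-(η / 2))) x.2) ?_ ?_ hx
    · exact isClosed_eq (by fun_prop) (by fun_prop)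
    · intro v
      show J (𝓔.ι v) = Top 𝓕 b c (ap (-(η / 2))) (𝓕.ι v)
      rw [hJ, H'.Top_ι (UMB.ap_neg H.nonneg hη2)]
  have hmem : ∀ y : E, (Top 𝓔 b c (ap (-((s + η) / 2))) y, Top 𝓕 b c (ap (-(s / 2))) (J y)) ∈
      gr 𝓔 𝓕 := by
    intro y
    refine 𝓔.denseRange_ι.induction_on (p := fun y =>
      (Top 𝓔 b c (ap (-((s + η) / 2))) y, Top 𝓕 b c (ap (-(s / 2))) (J y)) ∈ gr 𝓔 𝓕) y ?_ ?_
    · exact (isClosed_gr 𝓔 𝓕).preimage (by fun_prop)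
    · intro u
      rw [hJ, H.Top_ι (UMB.ap_neg H.nonneg hsη2), H'.Top_ι (UMB.ap_neg H.nonneg hs2), ← fc_mul]
      have : fc b c (fun x => ap (-(s / 2)) x * ap (-(η / 2)) x) = fc b c (ap (-((s + η) / 2))) := by
        refine fc_congr b H.nonneg fun x hx => ?_
        rw [← ap_add hx]
        congr 1
        ring
      rw [this]
      exact mem_gr _ _ _
  have hlist : ∀ L : List (G × E),
      (L.map fun a => ENNReal.ofReal (w a.1⁻¹) * 𝓔.sobolev D (s + η) (𝓔.ρ a.1 a.2)).sum < ⊤ →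
      ∃ x' : F, ((L.map fun a => a.2).sum, x') ∈ gr 𝓔 𝓕 ∧ 𝓕.averageE D w s x' ≤
        C * (L.map fun a => ENNReal.ofReal (w a.1⁻¹) * 𝓔.sobolev D (s + η) (𝓔.ρ a.1 a.2)).sum := by
    intro L
    induction L with
    | nil =>
      intro _
      refine ⟨0, ?_, ?_⟩
      · exact (gr 𝓔 𝓕).zero_mem
      · simp [𝓕.averageE_zero D]
    | cons a L ih =>
      intro hlt
      simp only [List.map_cons, List.sum_cons] at hlt ⊢
      rw [ENNReal.add_lt_top] at hlt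
      obtain ⟨x', hx', hx'2⟩ := ih hlt.2
      have hw0 : ENNReal.ofReal (w a.1⁻¹) ≠ 0 := by simpa using H.wt.pos a.1⁻¹
      have hsob : 𝓔.sobolev D (s + η) (𝓔.ρ a.1 a.2) < ⊤ := by
        by_contra hcon
        rw [not_lt, top_le_iff] at hcon
        rw [hcon, ENNReal.mul_top hw0] at hlt
        exact lt_irrefl _ hlt.1
      obtain ⟨y, hy, hy2⟩ := H.exists_of_sobolev_lt_top hD hsη hsob
      refine ⟨𝓕.ρ a.1⁻¹ (Top 𝓕 b c (ap (-(s / 2))) (J y)) + x', ?_, ?_⟩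
      · have h1 := rho_mem_gr 𝓔 𝓕 hG a.1⁻¹ (hmem y)
        have h2 : 𝓔.ρ a.1⁻¹ (Top 𝓔 b c (ap (-((s + η) / 2))) y) = a.2 := by
          rw [← hy, ← mul_apply_eq_comp, ← map_mul, inv_mul_cancel, map_one]; rfl
        simp only at h1
        rw [h2] at h1
        exact (gr 𝓔 𝓕).add_mem h1 hx'
      · refine (𝓕.averageE_add_le D _ _).trans ?_
        rw [mul_add]
        refine add_le_add ?_ hx'2
        refine (𝓕.averageE_le_sobolev D a.1 _).trans ?_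
        rw [H'.sobolev_B hD hs, hy2]
        have h3 : ‖J y‖ₑ ≤ C * ‖y‖ₑ := by
          have := hJn y
          rw [← ofReal_norm, ← ofReal_norm, ← ENNReal.ofReal_coe_nnreal,
            ← ENNReal.ofReal_mul (by positivity)]
          exact ENNReal.ofReal_le_ofReal this
        calc ENNReal.ofReal (w a.1⁻¹) * ‖J y‖ₑ ≤ ENNReal.ofReal (w a.1⁻¹) * (C * ‖y‖ₑ) := by gcongr
          _ = _ := by ring
  refine ⟨C, fun v => ?_⟩
  conv_rhs => rw [Globalization.averageE]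
  have hCne : (C : ℝ≥0∞) ≠ 0 := by
    have : (0:ℝ≥0) < C := lt_of_lt_of_le one_pos hC1
    exact_mod_cast this.ne'
  rw [ENNReal.mul_iInf_of_ne hCne ENNReal.coe_ne_top]
  refine le_iInf fun L => ?_
  rw [ENNReal.mul_iInf_of_ne hCne ENNReal.coe_ne_top]
  refine le_iInf fun hL' => ?_
  rcases eq_or_ne ((L.map fun a => ENNReal.ofReal (w a.1⁻¹) *
    𝓔.sobolev D (s + η) (𝓔.ρ a.1 a.2)).sum) ⊤ with htop | htop
  · rw [htop, ENNReal.mul_top hCne]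
    exact le_top
  · obtain ⟨x', hx', hx'2⟩ := hlist L (lt_top_iff_ne_top.2 htop)
    rw [hL'] at hx'
    have h1 := hgrJ _ ((gr 𝓔 𝓕).sub_mem hx' (mem_gr 𝓔 𝓕 v))
    simp only [Prod.mk_sub_mk, sub_self, map_zero] at h1
    have h2 : x' - 𝓕.ι v = 0 := H'.B_inj hη2 (by rw [← h1, map_zero])
    rw [sub_eq_zero] at h2
    rw [← h2]
    exact hx'2

theorem average_mono (H : Ctx 𝓔 w X b c W) {D : ℝ → V →ₗ[ℂ] V}
    (hD : IsSobolevFamily (casimir M X) D) {s s' : ℝ} (hs : 0 ≤ s) (hss' : s ≤ s') :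
    ∃ C : ℝ≥0, ∀ v, 𝓔.averageE D w s (𝓔.ι v) ≤ C * 𝓔.averageE D w s' (𝓔.ι v) := by
  have hW := H.W_pos
  have hs' : 0 ≤ s' := hs.trans hss'
  have hd : 0 ≤ (s' - s) / 2 := by linarith
  refine ⟨(W ^ 2).toNNReal, fun v => ?_⟩
  have hCe : (((W ^ 2).toNNReal : ℝ≥0) : ℝ≥0∞) = ENNReal.ofReal (W ^ 2) := rfl
  rw [hCe]
  refine 𝓔.averageE_lower D (F := fun x => 𝓔.averageE D w s x) (𝓔.averageE_zero D)
    (𝓔.averageE_add_le D) ?_ ENNReal.ofReal_ne_top ?_ _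
  · simp only [ne_eq, ENNReal.ofReal_eq_zero, not_le]
    positivity
  intro g x
  rcases eq_or_ne (𝓔.sobolev D s' (𝓔.ρ g x)) ⊤ with htop | htop
  · rw [htop, ENNReal.mul_top, ENNReal.mul_top]
    · exact le_top
    · simp only [ne_eq, ENNReal.ofReal_eq_zero, not_le]
      positivity
    · simpa using H.wt.pos g⁻¹
  obtain ⟨y, hy, hy2⟩ := H.exists_of_sobolev_lt_top hD hs' (lt_top_iff_ne_top.2 htop)
  have hx : x = 𝓔.ρ g⁻¹ (𝓔.ρ g x) := by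
    rw [← mul_apply_eq_comp, ← map_mul, inv_mul_cancel, map_one]; rfl
  conv_lhs => rw [hx]
  refine (𝓔.averageE_le_sobolev D g _).trans ?_
  rw [hy2, hy]
  have h1 : Top 𝓔 b c (ap (-(s' / 2))) y =
      Top 𝓔 b c (ap (-(s / 2))) (Top 𝓔 b c (ap (-((s' - s) / 2))) y) := by
    refine H.Top_mul (UMB.ap_neg H.nonneg (by positivity)) (UMB.ap_neg H.nonneg hd)
      (UMB.ap_neg H.nonneg (by positivity)) (fun x hx => ?_) y
    rw [← ap_add hx]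
    congr 1
    ring
  rw [h1, H.sobolev_B hD hs]
  have h2 := H.Top_le (UMB.ap_neg H.nonneg hd) y
  have h3 : ‖Top 𝓔 b c (ap (-((s' - s) / 2))) y‖ₑ ≤ ENNReal.ofReal (W ^ 2) * ‖y‖ₑ := by
    rw [← ofReal_norm, ← ofReal_norm, ← ENNReal.ofReal_mul (by positivity)]
    exact ENNReal.ofReal_le_ofReal (by simpa using h2)
  calc ENNReal.ofReal (w g⁻¹) * ‖Top 𝓔 b c (ap (-((s' - s) / 2))) y‖ₑ
      ≤ ENNReal.ofReal (w g⁻¹) * (ENNReal.ofReal (W ^ 2) * ‖y‖ₑ) := by gcongr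
    _ = _ := by ring

end Pool.Agent.H1.SobAvg
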