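import Pool.Agent.H1.SobAvg.Main

namespace Pool.Agent.H1.SobAvg

open Filter Topology
open scoped ENNReal NNReal

universe v

variable {G : Type*} [Group G] [TopologicalSpace G] {K : Subgroup G}
  {V : Type v} [AddCommGroup V] [Module ℂ V] {M : GKModule K V}
  {E : Type*} [NormedAddCommGroup E] [NormedSpace ℂ E]
  {F : Type*} [NormedAddCommGroup F] [NormedSpace ℂ F]

/-- closure of the graph of the identity of `V` in `E × F` -/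
noncomputable def gr (𝓔 : Globalization M E) (𝓕 : Globalization M F) : Submodule ℂ (E × F) :=
  (LinearMap.range (𝓔.ι.prod 𝓕.ι)).topologicalClosure

theorem mem_gr (𝓔 : Globalization M E) (𝓕 : Globalization M F) (v : V) :
    (𝓔.ι v, 𝓕.ι v) ∈ gr 𝓔 𝓕 :=
  Submodule.le_topologicalClosure _ ⟨v, rfl⟩

theorem isClosed_gr (𝓔 : Globalization M E) (𝓕 : Globalization M F) :
    IsClosed (gr 𝓔 𝓕 : Set (E × F)) := Submodule.isClosed_topologicalClosure _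

theorem gr_induction {𝓔 : Globalization M E} {𝓕 : Globalization M F} {p : E × F → Prop}
    (hp : IsClosed {x | p x}) (h : ∀ v, p (𝓔.ι v, 𝓕.ι v)) {x : E × F} (hx : x ∈ gr 𝓔 𝓕) : p x := by
  have h1 : x ∈ closure ((LinearMap.range (𝓔.ι.prod 𝓕.ι) : Submodule ℂ (E × F)) : Set (E × F)) := hx
  refine (hp.closure_subset_iff.2 ?_ h1 : x ∈ {x | p x})
  rintro _ ⟨v, rfl⟩
  exact h v

theorem rho_X_mem_gr (𝓔 : Globalization M E) (𝓕 : Globalization M F)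
    (X : Multiplicative ℝ →ₜ* G) (t : ℝ) (v : V) :
    (𝓔.ρ (X (Multiplicative.ofAdd t)) (𝓔.ι v), 𝓕.ρ (X (Multiplicative.ofAdd t)) (𝓕.ι v)) ∈
      gr 𝓔 𝓕 := by
  have _ := isClosed_gr 𝓔 𝓕
  let π := (gr 𝓔 𝓕).mkQL
  let φ : ℝ → (E × F) ⧸ gr 𝓔 𝓕 := fun t =>
    π (𝓔.ρ (X (Multiplicative.ofAdd t)) (𝓔.ι v), 𝓕.ρ (X (Multiplicative.ofAdd t)) (𝓕.ι v))
  have hsum : ∀ t₀ : ℝ, ∀ᶠ t in 𝓝 (0:ℝ), HasSum (fun n : ℕ => t ^ n • π
      (𝓔.ρ (X (Multiplicative.ofAdd t₀)) ((n.factorial : ℝ)⁻¹ • 𝓔.ι ((M.actg X ^ n) v)),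
       𝓕.ρ (X (Multiplicative.ofAdd t₀)) ((n.factorial : ℝ)⁻¹ • 𝓕.ι ((M.actg X ^ n) v))))
      (φ (t₀ + t)) := by
    intro t₀
    filter_upwards [𝓔.map_actg X v, 𝓕.map_actg X v] with t h1 h2
    have h3 := (𝓔.ρ (X (Multiplicative.ofAdd t₀))).hasSum h1
    have h4 := (𝓕.ρ (X (Multiplicative.ofAdd t₀))).hasSum h2
    have h5 := π.hasSum (h3.prodMk h4)
    have h6 : φ (t₀ + t) = π (𝓔.ρ (X (Multiplicative.ofAdd t₀)) (𝓔.ρ (X (Multiplicative.ofAdd t))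
        (𝓔.ι v)), 𝓕.ρ (X (Multiplicative.ofAdd t₀)) (𝓕.ρ (X (Multiplicative.ofAdd t)) (𝓕.ι v))) := by
      simp only [φ, ofAdd_add, map_mul, mul_apply_eq_comp]
    rw [h6]
    convert h5 using 2 with n
    simp only [ContinuousLinearMap.map_smul_of_tower, ← Prod.smul_mk]
  have han : AnalyticOnNhd ℝ φ Set.univ := fun t₀ _ =>
    (hasFPowerSeriesAt_of_hasSum (hsum t₀)).analyticAt
  have hzero : φ =ᶠ[𝓝 0] 0 := by
    filter_upwards [hsum 0] with t ht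
    rw [zero_add] at ht
    refine ht.unique ?_
    have : ∀ n : ℕ, t ^ n • π
      (𝓔.ρ (X (Multiplicative.ofAdd 0)) ((n.factorial : ℝ)⁻¹ • 𝓔.ι ((M.actg X ^ n) v)),
       𝓕.ρ (X (Multiplicative.ofAdd 0)) ((n.factorial : ℝ)⁻¹ • 𝓕.ι ((M.actg X ^ n) v))) = 0 := by
      intro n
      have h1 : X (Multiplicative.ofAdd (0:ℝ)) = 1 := by rw [ofAdd_zero, map_one]
      have h2 : (((n.factorial : ℝ)⁻¹ • 𝓔.ι ((M.actg X ^ n) v),
          (n.factorial : ℝ)⁻¹ • 𝓕.ι ((M.actg X ^ n) v)) : E × F) ∈ gr 𝓔 𝓕 := by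
        rw [← Prod.smul_mk]
        exact Submodule.smul_of_tower_mem _ _ (mem_gr 𝓔 𝓕 _)
      have h4 : ∀ x : E, (1 : E →L[ℂ] E) x = x := fun x => rfl
      have h5 : ∀ x : F, (1 : F →L[ℂ] F) x = x := fun x => rfl
      rw [h1, map_one, map_one, h4, h5]
      have h3 : π ((n.factorial : ℝ)⁻¹ • 𝓔.ι ((M.actg X ^ n) v),
          (n.factorial : ℝ)⁻¹ • 𝓕.ι ((M.actg X ^ n) v)) = 0 :=
        (Submodule.Quotient.mk_eq_zero _).2 h2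
      rw [h3, smul_zero]
    simp only [this]
    exact hasSum_zero
  have hall := han.eq_of_eventuallyEq (fun _ _ => analyticAt_const) hzero
  have ht := congr_fun hall t
  exact (Submodule.Quotient.mk_eq_zero _).1 ht

theorem rho_mem_gr (𝓔 : Globalization M E) (𝓕 : Globalization M F)
    (hG : Subgroup.closure ((K : Set G) ∪
      {g | ∃ (X : Multiplicative ℝ →ₜ* G) (t : ℝ), X (Multiplicative.ofAdd t) = g}) = ⊤)
    (g : G) {x : E × F} (hx : x ∈ gr 𝓔 𝓕) : (𝓔.ρ g x.1, 𝓕.ρ g x.2) ∈ gr 𝓔 𝓕 := by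
  have hext : ∀ g : G, (∀ v, (𝓔.ρ g (𝓔.ι v), 𝓕.ρ g (𝓕.ι v)) ∈ gr 𝓔 𝓕) →
      ∀ x ∈ gr 𝓔 𝓕, (𝓔.ρ g x.1, 𝓕.ρ g x.2) ∈ gr 𝓔 𝓕 := by
    intro g hg x hx
    refine gr_induction (p := fun x : E × F => (𝓔.ρ g x.1, 𝓕.ρ g x.2) ∈ gr 𝓔 𝓕) ?_ hg hx
    exact (isClosed_gr 𝓔 𝓕).preimage (by fun_prop)
  have hall : ∀ g ∈ Subgroup.closure ((K : Set G) ∪
      {g | ∃ (X : Multiplicative ℝ →ₜ* G) (t : ℝ), X (Multiplicative.ofAdd t) = g}),
      ∀ x ∈ gr 𝓔 𝓕, (𝓔.ρ g x.1, 𝓕.ρ g x.2) ∈ gr 𝓔 𝓕 ∧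
        (𝓔.ρ g⁻¹ x.1, 𝓕.ρ g⁻¹ x.2) ∈ gr 𝓔 𝓕 := by
    intro g hg
    induction hg using Subgroup.closure_induction with
    | mem g hg =>
      intro x hx
      rcases hg with hg | ⟨X, t, rfl⟩
      · have h1 : ∀ k : K, ∀ x ∈ gr 𝓔 𝓕, (𝓔.ρ (k : G) x.1, 𝓕.ρ (k : G) x.2) ∈ gr 𝓔 𝓕 := by
          intro k
          refine hext _ fun v => ?_
          rw [← 𝓔.map_actK, ← 𝓕.map_actK]
          exact mem_gr _ _ _
        exact ⟨h1 ⟨g, hg⟩ x hx, h1 ⟨g⁻¹, K.inv_mem hg⟩ x hx⟩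
      · refine ⟨hext _ (rho_X_mem_gr 𝓔 𝓕 X t) x hx, ?_⟩
        have : (X (Multiplicative.ofAdd t))⁻¹ = X (Multiplicative.ofAdd (-t)) := by
          rw [ofAdd_neg, map_inv]
        rw [this]
        exact hext _ (rho_X_mem_gr 𝓔 𝓕 X (-t)) x hx
    | one => intro x hx; simpa using hx
    | mul a b _ _ iha ihb =>
      intro x hx
      refine ⟨?_, ?_⟩
      · have h1 := (iha _ (ihb x hx).1).1
        simpa [map_mul] using h1
      · have h1 := (ihb _ (iha x hx).2).2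
        simpa [map_mul, mul_inv_rev] using h1
    | inv a _ iha =>
      intro x hx
      refine ⟨(iha x hx).2, ?_⟩
      rw [inv_inv]
      exact (iha x hx).1
  exact (hall g (by rw [hG]; trivial) x hx).1

end Pool.Agent.H1.SobAvg
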