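import Mathlib

open scoped ENNReal NNReal Topology

namespace Pool.Agent.H1.SobAvg

/-- The data of a `(𝔤, K)`-module on the complex vector space `V`, the Lie algebra `𝔤` of `G` being
given by the one-parameter subgroups `X : ℝ → G`: the operators `actK k` (`k ∈ K`) and `actg X`. -/
structure GKModule {G : Type*} [Group G] [TopologicalSpace G] (K : Subgroup G)
    (V : Type*) [AddCommGroup V] [Module ℂ V] where
  /-- the action of `K` -/
  actK : K →* (V →ₗ[ℂ] V)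
  /-- the action of the elements of the Lie algebra -/
  actg : (Multiplicative ℝ →ₜ* G) → (V →ₗ[ℂ] V)

/-- A Banach globalization of the `(𝔤, K)`-module `M`: a continuous representation `ρ` of `G` on
the Banach space `E` together with a `(𝔤, K)`-isomorphism `ι` of `V` onto the space of `K`-finite
vectors of `E`, which is dense. The `𝔤`-equivariance says
`ρ(exp tX) ι(v) = ∑ tⁿ/n! ι(Xⁿ v)` for small `t`. Thus `E` is the completion of `V` for the norm
`v ↦ ‖ι v‖`, and the `G`-continuous norms on `V` are the norms of this form. -/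
structure Globalization {G : Type*} [Group G] [TopologicalSpace G] {K : Subgroup G}
    {V : Type*} [AddCommGroup V] [Module ℂ V] (M : GKModule K V)
    (E : Type*) [NormedAddCommGroup E] [NormedSpace ℂ E] where
  /-- the representation -/
  ρ : G →* (E →L[ℂ] E)
  continuous_ρ : Continuous fun x : G × E => ρ x.1 x.2
  /-- the embedding -/
  ι : V →ₗ[ℂ] E
  injective_ι : Function.Injective ι
  denseRange_ι : DenseRange ι
  kfinite : ∀ x : E, x ∈ LinearMap.range ι ↔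
    FiniteDimensional ℂ (Submodule.span ℂ (Set.range fun k : K => ρ (k : G) x))
  map_actK : ∀ (k : K) (v : V), ι (M.actK k v) = ρ (k : G) (ι v)
  map_actg : ∀ (X : Multiplicative ℝ →ₜ* G) (v : V), ∀ᶠ t : ℝ in 𝓝 0,
    HasSum (fun n : ℕ => t ^ n • (n.factorial : ℝ)⁻¹ • ι ((M.actg X ^ n) v))
      (ρ (X (Multiplicative.ofAdd t)) (ι v))

/-- A weight: a locally bounded positive submultiplicative function. -/
structure IsWeight {G : Type*} [Group G] [TopologicalSpace G] (w : G → ℝ) : Prop where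
  pos : ∀ g, 0 < w g
  mul_le : ∀ g h, w (g * h) ≤ w g * w h
  locBdd : ∀ g, ∃ B : ℝ, ∀ᶠ h in 𝓝 g, w h ≤ B

variable {G : Type*} [Group G] [TopologicalSpace G] {K : Subgroup G}
  {V : Type*} [AddCommGroup V] [Module ℂ V] {M : GKModule K V}

/-- The Casimir operator `-∑ Xᵢ²` on `V` (with `Xᵢ` an orthonormal basis of the Lie algebra of
`K`). -/
noncomputable def casimir (M : GKModule K V) {m : ℕ} (X : Fin m → (Multiplicative ℝ →ₜ* G)) :
    V →ₗ[ℂ] V := -∑ i, (M.actg (X i)) ^ 2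

/-- `D s = (1 + C)^(s/2)`: it acts by the scalar `(1 + c)^(s/2)` on the `c`-eigenspace of `C`. -/
def IsSobolevFamily (C : V →ₗ[ℂ] V) (D : ℝ → V →ₗ[ℂ] V) : Prop :=
  ∀ (s c : ℝ) (v : V), C v = (c : ℂ) • v → D s v = (((1 + c) ^ (s / 2) : ℝ) : ℂ) • v

section
variable {E : Type*} [NormedAddCommGroup E] [NormedSpace ℂ E]

/-- The norm `p(v) = ‖ι v‖` belongs to `Norm(V, w)`: `p(g v) ≤ C w(g) p(v)`. -/
def Globalization.InNorm (𝓔 : Globalization M E) (w : G → ℝ) : Prop :=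
  ∃ C : ℝ, ∀ g v, ‖𝓔.ρ g (𝓔.ι v)‖ ≤ C * w g * ‖𝓔.ι v‖

/-- The norm `p`. -/
noncomputable def Globalization.nrm (𝓔 : Globalization M E) (v : V) : ℝ≥0∞ := ‖𝓔.ι v‖ₑ

/-- The Sobolev norm `p_s(v) = p(D_s v)`, extended to the completion `E ⊇ V_{p_s}` of `V` (with the
value `∞` outside the completion `V_{p_s}`). -/
noncomputable def Globalization.sobolev (𝓔 : Globalization M E) (D : ℝ → V →ₗ[ℂ] V) (s : ℝ)
    (x : E) : ℝ≥0∞ :=
  ⨅ (y : E) (_ : (x, y) ∈ closure (Set.range fun v : V => (𝓔.ι v, 𝓔.ι (D s v)))), ‖y‖ₑ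

/-- The averaged norm `p_s^G` on the completion: the infimum of `∑ w(gᵢ⁻¹) p_s(gᵢ xᵢ)` over the finite
decompositions `x = ∑ xᵢ`. -/
noncomputable def Globalization.averageE (𝓔 : Globalization M E) (D : ℝ → V →ₗ[ℂ] V) (w : G → ℝ)
    (s : ℝ) (x : E) : ℝ≥0∞ :=
  ⨅ (L : List (G × E)) (_ : (L.map fun a => a.2).sum = x),
    (L.map fun a => ENNReal.ofReal (w a.1⁻¹) * 𝓔.sobolev D s (𝓔.ρ a.1 a.2)).sum

/-- `p_s^G` on `V`. -/
noncomputable def Globalization.average (𝓔 : Globalization M E) (D : ℝ → V →ₗ[ℂ] V) (w : G → ℝ)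
    (s : ℝ≥0) (v : V) : ℝ≥0∞ := 𝓔.averageE D w s (𝓔.ι v)

end

/-- `p ≲ q`. -/
def Dominated (p q : V → ℝ≥0∞) : Prop := ∃ C : ℝ≥0, ∀ v, p v ≤ C * q v

/-- `d_→(p,q) = inf {s ≥ 0 : p ≲ q_s}`. -/
noncomputable def dTo (D : ℝ → V →ₗ[ℂ] V) (p q : V → ℝ≥0∞) : ℝ≥0∞ :=
  ⨅ (s : ℝ≥0) (_ : Dominated p fun v => q (D s v)), (s : ℝ≥0∞)

/-- the distance `d(p, q)`. -/
noncomputable def sobDist (D : ℝ → V →ₗ[ℂ] V) (p q : V → ℝ≥0∞) : ℝ≥0∞ :=
  max (dTo D p q) (dTo D q p)

end Pool.Agent.H1.SobAvg
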