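import Mathlib

namespace Pool.Agent.H1.SobAvg

open Filter Topology MeasureTheory ComplexConjugate

/-- Invariant Hermitian form for a compact group action on a finite dimensional space. -/
theorem exists_core {K : Type*} [Group K] [TopologicalSpace K] [IsTopologicalGroup K]
    [CompactSpace K] {U : Type*} [AddCommGroup U] [Module ℂ U] [FiniteDimensional ℂ U]
    (π : K →* (U →ₗ[ℂ] U))
    (hcont : ∀ (ξ : U →ₗ[ℂ] ℂ) (u : U), Continuous fun k => ξ (π k u)) :
    ∃ core : InnerProductSpace.Core ℂ U, ∀ (k : K) (u v : U),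
      core.inner (π k u) (π k v) = core.inner u v := by
  classical
  let _ : MeasurableSpace K := borel K
  have _ : BorelSpace K := ⟨rfl⟩
  let μ : Measure K := Measure.haar
  let bU := Module.finBasis ℂ U
  let F : U → U → K → ℂ := fun u v k => ∑ j, conj (bU.coord j (π k⁻¹ u)) * bU.coord j (π k⁻¹ v)
  have hF : ∀ u v, Continuous (F u v) := by
    intro u v
    refine continuous_finsetSum _ fun j _ => ?_
    have h1 := (hcont (bU.coord j) u).comp continuous_inv
    have h2 := (hcont (bU.coord j) v).comp continuous_inv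
    exact (Complex.continuous_conj.comp h1).mul h2
  have hI : ∀ u v, Integrable (F u v) μ := by
    intro u v
    exact (hF u v).integrable_of_hasCompactSupport (HasCompactSupport.of_compactSpace _)
  have hFdiag : ∀ u k, F u u k = ((∑ j, ‖bU.coord j (π k⁻¹ u)‖ ^ 2 : ℝ) : ℂ) := by
    intro u k
    simp only [F]
    push_cast
    refine Finset.sum_congr rfl fun j _ => ?_
    rw [Complex.conj_mul']
  refine ⟨{ inner := fun u v => ∫ k, F u v k ∂μ
            conj_inner_symm := ?_
            re_inner_nonneg := ?_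
            add_left := ?_
            smul_left := ?_
            definite := ?_ }, ?_⟩
  · intro u v
    rw [← integral_conj]
    congr 1
    ext k
    simp only [F, map_sum, map_mul, Complex.conj_conj]
    exact Finset.sum_congr rfl fun j _ => mul_comm _ _
  · intro u
    have : (fun k => F u u k) = fun k => ((∑ j, ‖bU.coord j (π k⁻¹ u)‖ ^ 2 : ℝ) : ℂ) := by
      ext k; exact hFdiag u k
    show 0 ≤ RCLike.re (∫ k, F u u k ∂μ)
    rw [this, integral_complex_ofReal]
    simp only [RCLike.re_to_complex, Complex.ofReal_re]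
    exact integral_nonneg fun k => Finset.sum_nonneg fun j _ => by positivity
  · intro u v z
    show ∫ k, F (u + v) z k ∂μ = ∫ k, F u z k ∂μ + ∫ k, F v z k ∂μ
    rw [← integral_add (hI _ _) (hI _ _)]
    congr 1
    ext k
    simp only [F, map_add, add_mul, Finset.sum_add_distrib]
  · intro u v r
    show ∫ k, F (r • u) v k ∂μ = conj r * ∫ k, F u v k ∂μ
    rw [← integral_const_mul]
    congr 1
    ext k
    simp only [F, map_smul, smul_eq_mul, map_mul, Finset.mul_sum, mul_assoc]
  · intro u hu
    have h1 : ∫ k, F u u k ∂μ = 0 := hu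
    have : (fun k => F u u k) = fun k => ((∑ j, ‖bU.coord j (π k⁻¹ u)‖ ^ 2 : ℝ) : ℂ) := by
      ext k; exact hFdiag u k
    rw [this, integral_complex_ofReal, Complex.ofReal_eq_zero] at h1
    have hc : Continuous fun k => (∑ j, ‖bU.coord j (π k⁻¹ u)‖ ^ 2 : ℝ) := by
      refine continuous_finsetSum _ fun j _ => ?_
      exact (((hcont (bU.coord j) u).comp continuous_inv).norm).pow 2
    have h2 : (∑ j, ‖bU.coord j (π (1 : K)⁻¹ u)‖ ^ 2 : ℝ) = 0 := by
      by_contra hne
      exact (hc.integral_pos_of_hasCompactSupport_nonneg_nonzero (μ := μ)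
        (HasCompactSupport.of_compactSpace _)
        (fun k => Finset.sum_nonneg fun j _ => by positivity) hne).ne' h1
    simp only [inv_one, map_one, Module.End.one_apply] at h2
    rw [Finset.sum_eq_zero_iff_of_nonneg (fun j _ => by positivity)] at h2
    apply bU.ext_elem
    intro j
    have := h2 j (Finset.mem_univ _)
    simpa using this
  · intro k u v
    show ∫ k', F (π k u) (π k v) k' ∂μ = ∫ k', F u v k' ∂μ
    rw [← integral_mul_left_eq_self (fun k' => F (π k u) (π k v) k') k]
    congr 1
    ext k'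
    simp only [F]
    have : π ((k * k')⁻¹) * π k = π k'⁻¹ := by
      rw [← map_mul]; congr 1; group
    refine Finset.sum_congr rfl fun j _ => ?_
    rw [← Module.End.mul_apply, ← Module.End.mul_apply, this]

/-- Minus the sum of squares of the generators of one parameter subgroups of a compact group is
diagonalisable with nonnegative eigenvalues. -/
theorem diag_of_compact {K : Type*} [Group K] [TopologicalSpace K] [IsTopologicalGroup K]
    [CompactSpace K] {U : Type*} [AddCommGroup U] [Module ℂ U] [FiniteDimensional ℂ U]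
    (π : K →* (U →ₗ[ℂ] U))
    (hcont : ∀ (ξ : U →ₗ[ℂ] ℂ) (u : U), Continuous fun k => ξ (π k u))
    {m : ℕ} (x : Fin m → ℝ → K) (hx : ∀ i t, x i (-t) = (x i t)⁻¹) (A : Fin m → (U →ₗ[ℂ] U))
    (hA : ∀ i (ξ : U →ₗ[ℂ] ℂ) (u : U), HasDerivAt (fun t : ℝ => ξ (π (x i t) u)) (ξ (A i u)) 0)
    (u : U) :
    u ∈ Submodule.span ℂ {u' : U | ∃ c : ℝ, 0 ≤ c ∧ (-∑ i, (A i) ^ 2) u' = (c : ℂ) • u'} := by
  classical
  obtain ⟨core, hcore⟩ := exists_core π hcont
  let _ : NormedAddCommGroup U := core.toNormedAddCommGroup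
  let _ : InnerProductSpace ℂ U := InnerProductSpace.ofCore core.toCore
  have hinv : ∀ (k : K) (u v : U), inner ℂ (π k u) (π k v) = inner ℂ u v := hcore
  have hskew : ∀ i (u v : U), inner ℂ u (A i v) = - inner ℂ (A i u) v := by
    intro i u v
    have h1 : HasDerivAt (fun t : ℝ => inner ℂ u (π (x i t) v)) (inner ℂ u (A i v)) 0 :=
      hA i (innerₛₗ ℂ u) v
    have h2 : HasDerivAt (fun t : ℝ => inner ℂ v (π (x i t) u)) (inner ℂ v (A i u)) 0 :=
      hA i (innerₛₗ ℂ v) u
    have h3 : HasDerivAt (fun t : ℝ => inner ℂ v (π (x i (-t)) u)) (- inner ℂ v (A i u)) 0 := by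
      have h4 : HasDerivAt (fun t : ℝ => -t) (-1) (0:ℝ) := hasDerivAt_neg 0
      have h5 : HasDerivAt (fun t : ℝ => inner ℂ v (π (x i t) u)) (inner ℂ v (A i u)) (-0) := by
        simpa using h2
      have h6 := h5.scomp (0:ℝ) h4
      simpa [Function.comp_def] using h6
    have h7 : HasDerivAt (fun t : ℝ => conj (inner ℂ v (π (x i (-t)) u)))
        (conj (- inner ℂ v (A i u))) 0 := by
      have := (Complex.conjCLE.toContinuousLinearMap.hasFDerivAt).comp_hasDerivAt (0:ℝ) h3
      exact this
    have h8 : (fun t : ℝ => conj (inner ℂ v (π (x i (-t)) u))) =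
        fun t : ℝ => inner ℂ u (π (x i t) v) := by
      ext t
      rw [inner_conj_symm, ← hinv (x i t) (π (x i (-t)) u) v, ← Module.End.mul_apply, ← map_mul, hx]
      simp
    rw [h8] at h7
    rw [h1.unique h7, map_neg, inner_conj_symm]
  set T : U →ₗ[ℂ] U := -∑ i, (A i) ^ 2 with hT
  have hTsym : T.IsSymmetric := by
    intro u v
    simp only [hT, LinearMap.neg_apply, LinearMap.sum_apply, inner_neg_left, inner_neg_right,
      sum_inner, inner_sum, pow_two, Module.End.mul_apply]
    congr 1
    refine Finset.sum_congr rfl fun i _ => ?_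
    rw [hskew i u (A i v), hskew i (A i u) v, neg_neg]
  have hTpos : ∀ u : U, 0 ≤ RCLike.re (inner ℂ u (T u)) := by
    intro u
    have : inner ℂ u (T u) = ∑ i, inner ℂ (A i u) (A i u) := by
      simp only [hT, LinearMap.neg_apply, LinearMap.sum_apply, inner_neg_right, inner_sum, pow_two,
        Module.End.mul_apply]
      rw [← Finset.sum_neg_distrib]
      refine Finset.sum_congr rfl fun i _ => ?_
      rw [hskew i u (A i u), neg_neg]
    rw [this, map_sum]
    exact Finset.sum_nonneg fun i _ => inner_self_nonneg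
  let eb := hTsym.eigenvectorBasis rfl
  have hmem : ∀ j, eb j ∈ {u' : U | ∃ c : ℝ, 0 ≤ c ∧ T u' = (c : ℂ) • u'} := by
    intro j
    refine ⟨hTsym.eigenvalues rfl j, ?_, hTsym.apply_eigenvectorBasis rfl j⟩
    exact eigenvalue_nonneg_of_nonneg (hTsym.hasEigenvalue_eigenvalues rfl j) hTpos
  have : u = ∑ j, eb.repr u j • eb j := (eb.sum_repr u).symm
  rw [this]
  exact Submodule.sum_mem _ fun j _ => Submodule.smul_mem _ _ (Submodule.subset_span (hmem j))

end Pool.Agent.H1.SobAvg
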