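import Pool.Agent.H1.SobAvg.Compare

namespace Pool.Agent.H1.SobAvg

open Filter Topology
open scoped ENNReal NNReal

universe v

theorem fc_coord {V : Type v} [AddCommGroup V] [Module ℂ V] {κ : Type*} (b : Module.Basis κ ℂ V)
    (c : κ → ℝ) (f : ℝ → ℝ) (v : V) (i : κ) :
    b.coord i (fc b c f v) = ((f (c i) : ℝ) : ℂ) * b.coord i v := by
  have : (b.coord i) ∘ₗ fc b c f = ((f (c i) : ℝ) : ℂ) • b.coord i := by
    refine b.ext fun j => ?_
    rw [LinearMap.comp_apply, fc_basis, map_smul, LinearMap.smul_apply]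
    rcases eq_or_ne i j with rfl | hij
    · rfl
    · simp [Finsupp.single_eq_of_ne hij]
  exact LinearMap.congr_fun this v

theorem fc_eigen {V : Type v} [AddCommGroup V] [Module ℂ V] {κ : Type*} {b : Module.Basis κ ℂ V}
    {c : κ → ℝ} {v : V} {r : ℝ} (h : fc b c (fun x => x) v = (r : ℂ) • v) (f : ℝ → ℝ) :
    fc b c f v = ((f r : ℝ) : ℂ) • v := by
  apply b.ext_elem
  intro i
  have h1 := fc_coord b c (fun x => x) v i
  have h2 := fc_coord b c f v i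
  rw [h, map_smul, smul_eq_mul] at h1
  simp only [Module.Basis.coord_apply] at h1 h2
  rw [h2, map_smul, Finsupp.smul_apply, smul_eq_mul]
  rcases eq_or_ne (b.repr v i) 0 with h0 | h0
  · rw [h0, mul_zero, mul_zero]
  · have h3 := mul_right_cancel₀ h0 h1
    rw [Complex.ofReal_inj.1 h3]

variable {G : Type*} [Group G] [TopologicalSpace G] [IsTopologicalGroup G] {K : Subgroup G}
  {V : Type v} [AddCommGroup V] [Module ℂ V] {M : GKModule K V}
  {E : Type*} [NormedAddCommGroup E] [NormedSpace ℂ E] [CompleteSpace E]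
  {F : Type*} [NormedAddCommGroup F] [NormedSpace ℂ F] [CompleteSpace F]
  {w : G → ℝ} {m : ℕ} {X : Fin m → (Multiplicative ℝ →ₜ* G)}

omit [CompleteSpace E] in
theorem existsUnique_sobolevFamily (𝓔 : Globalization M E) (hK : IsCompact (K : Set G))
    (hX : ∀ i t, X i t ∈ K) : ∃! D : ℝ → V →ₗ[ℂ] V, IsSobolevFamily (casimir M X) D := by
  have _ : CompactSpace K := isCompact_iff_compactSpace.1 hK
  obtain ⟨κ, b, c, hc, hcas⟩ := 𝓔.exists_basis X hX
  refine ⟨fun s => fc b c (ap (s / 2)), ?_, ?_⟩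
  · intro s r v hv
    rw [hcas] at hv
    exact fc_eigen hv _
  · intro D hD
    ext1 s
    exact D_eq hcas hD s

omit [IsTopologicalGroup G] [CompleteSpace E] in
theorem rho_le_of_inNorm {𝓔 : Globalization M E} {C : ℝ}
    (hC : ∀ g v, ‖𝓔.ρ g (𝓔.ι v)‖ ≤ C * w g * ‖𝓔.ι v‖) (g : G) (x : E) :
    ‖𝓔.ρ g x‖ ≤ C * w g * ‖x‖ := by
  refine 𝓔.denseRange_ι.induction_on (p := fun x => ‖𝓔.ρ g x‖ ≤ C * w g * ‖x‖) x ?_ (hC g)
  exact isClosed_le (by fun_prop) (by fun_prop)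

/-- general shift comparison -/
theorem Ctx.average_le {𝓔 : Globalization M E} {κ : Type*} {b : Module.Basis κ ℂ V} {c : κ → ℝ}
    {W : ℝ} (H : Ctx 𝓔 w X b c W) {D : ℝ → V →ₗ[ℂ] V} (hD : IsSobolevFamily (casimir M X) D)
    {s δ ε : ℝ} (hs : 0 ≤ s) (hδ : 0 ≤ δ) (hδε : δ < ε) :
    ∃ C : ℝ≥0, ∀ v, 𝓔.averageE D w (s + δ) (𝓔.ι v) ≤ C * 𝓔.averageE D w s (𝓔.ι (D ε v)) := by
  obtain ⟨n, hn⟩ := exists_nat_gt (max 1 (ε / 2))
  have hn1 : (1:ℝ) < n := (le_max_left _ _).trans_lt hn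
  have hn0 : (0:ℝ) < n := by linarith
  have hε : ε / n ≤ 2 := by
    rw [div_le_iff₀ hn0]
    have := (le_max_right _ _).trans_lt hn
    linarith
  have hδε' : δ / n < ε / n := by gcongr
  have key : ∀ k : ℕ, ∃ C : ℝ≥0, ∀ v, 𝓔.averageE D w (s + k * (δ / n)) (𝓔.ι v) ≤
      C * 𝓔.averageE D w s (𝓔.ι (D (k * (ε / n)) v)) := by
    intro k
    induction k with
    | zero =>
      refine ⟨1, fun v => ?_⟩
      rw [D_eq H.cas hD]
      have : (ap (((0:ℕ):ℝ) * (ε / n) / 2)) = fun _ => 1 := by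
        ext x; simp [ap]
      rw [this, fc_one]
      simp
    | succ k ih =>
      obtain ⟨C, hC⟩ := ih
      obtain ⟨C', hC'⟩ := H.average_le_small hD (s := s + k * (δ / n)) (δ := δ / n) (ε := ε / n)
        (by positivity) (by positivity) hδε' hε
      refine ⟨C' * C, fun v => ?_⟩
      have e1 : s + ((k + 1 : ℕ) : ℝ) * (δ / n) = s + k * (δ / n) + δ / n := by push_cast; ring
      have e2 : D (k * (ε / n)) (D (ε / n) v) = D (((k + 1 : ℕ) : ℝ) * (ε / n)) v := by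
        rw [D_eq H.cas hD, D_eq H.cas hD, D_eq H.cas hD, ← fc_mul]
        rw [fc_congr b H.nonneg]
        intro x hx
        rw [← ap_add hx]
        congr 1
        push_cast
        ring
      rw [e1]
      calc 𝓔.averageE D w (s + k * (δ / n) + δ / n) (𝓔.ι v)
          ≤ C' * 𝓔.averageE D w (s + k * (δ / n)) (𝓔.ι (D (ε / n) v)) := hC' v
        _ ≤ C' * (C * 𝓔.averageE D w s (𝓔.ι (D (k * (ε / n)) (D (ε / n) v)))) := by
          gcongr; exact hC _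
        _ = _ := by rw [e2]; push_cast; ring
  obtain ⟨C, hC⟩ := key n
  refine ⟨C, fun v => ?_⟩
  have := hC v
  rwa [mul_div_cancel₀ _ hn0.ne', mul_div_cancel₀ _ hn0.ne'] at this

omit [CompleteSpace E] [CompleteSpace F] in
theorem exists_ctx (𝓔 : Globalization M E) (𝓕 : Globalization M F) (hK : IsCompact (K : Set G))
    (hX : ∀ i t, X i t ∈ K) (hw : IsWeight w) (h𝓔 : 𝓔.InNorm w) (h𝓕 : 𝓕.InNorm w) :
    ∃ (κ : Type v) (b : Module.Basis κ ℂ V) (c : κ → ℝ) (W : ℝ),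
      Ctx 𝓔 w X b c W ∧ Ctx 𝓕 w X b c W := by
  have _ : CompactSpace K := isCompact_iff_compactSpace.1 hK
  obtain ⟨κ, b, c, hc, hcas⟩ := 𝓔.exists_basis X hX
  obtain ⟨B, hB⟩ := exists_weight_bound hw hK
  obtain ⟨C, hC⟩ := h𝓔
  obtain ⟨C', hC'⟩ := h𝓕
  set W := max (max 1 B) (max C C') with hW
  have hWB : B ≤ W := (le_max_right _ _).trans (le_max_left _ _)
  have hW1 : 1 ≤ W := (le_max_left _ _).trans (le_max_left _ _)
  have hWC : C ≤ W := (le_max_left _ _).trans (le_max_right _ _)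
  have hWC' : C' ≤ W := (le_max_right _ _).trans (le_max_right _ _)
  refine ⟨κ, b, c, W, ⟨hX, hc, hcas, hW1, fun k hk => (hB k hk).trans hWB, hw, fun g x => ?_⟩,
    ⟨hX, hc, hcas, hW1, fun k hk => (hB k hk).trans hWB, hw, fun g x => ?_⟩⟩
  · refine (rho_le_of_inNorm hC g x).trans ?_
    have := (hw.pos g).le
    gcongr
  · refine (rho_le_of_inNorm hC' g x).trans ?_
    have := (hw.pos g).le
    gcongr

theorem dTo_average_le (𝓔 : Globalization M E) (𝓕 : Globalization M F)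
    (hK : IsCompact (K : Set G))
    (hG : Subgroup.closure ((K : Set G) ∪
      {g | ∃ (X : Multiplicative ℝ →ₜ* G) (t : ℝ), X (Multiplicative.ofAdd t) = g}) = ⊤)
    (hX : ∀ i t, X i t ∈ K) (hw : IsWeight w) (h𝓔 : 𝓔.InNorm w) (h𝓕 : 𝓕.InNorm w)
    {D : ℝ → V →ₗ[ℂ] V} (hD : IsSobolevFamily (casimir M X) D) (s t : ℝ≥0) :
    dTo D (𝓔.average D w s) (𝓕.average D w t) ≤ edist s t + dTo D 𝓔.nrm 𝓕.nrm := by
  obtain ⟨κ, b, c, W, H, H'⟩ := exists_ctx 𝓔 𝓕 hK hX hw h𝓔 h𝓕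
  rw [← tsub_le_iff_left]
  refine le_iInf₂ fun η hη => ?_
  rw [tsub_le_iff_left]
  obtain ⟨C1, hC1⟩ := average_compare H' H hG hD η.2 s.2 hη
  rcases le_total ((s:ℝ) + η) t with hst | hst
  · obtain ⟨C2, hC2⟩ := average_mono H' hD (s := (s:ℝ) + η) (s' := t) (by positivity) hst
    have h0 : dTo D (𝓔.average D w s) (𝓕.average D w t) ≤ ((0:ℝ≥0) : ℝ≥0∞) := by
      refine iInf₂_le (0:ℝ≥0) ⟨C1 * C2, fun v => ?_⟩
      have hD0 : D ((0:ℝ≥0):ℝ) v = v := by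
        rw [D_eq H.cas hD]
        have : (ap (((0:ℝ≥0):ℝ) / 2)) = fun _ => 1 := by
          ext x; simp [ap]
        rw [this, fc_one]
      beta_reduce
      rw [hD0]
      calc 𝓔.average D w s v ≤ C1 * 𝓕.averageE D w (s + η) (𝓕.ι v) := hC1 v
        _ ≤ C1 * (C2 * 𝓕.averageE D w t (𝓕.ι v)) := by gcongr; exact hC2 v
        _ = _ := by rw [← mul_assoc]; push_cast; rfl
    refine h0.trans ?_
    simp
  · -- `a = s + η - t ≥ 0`
    set a : ℝ := (s:ℝ) + η - t with ha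
    have ha0 : 0 ≤ a := by rw [ha]; linarith
    have h1 : dTo D (𝓔.average D w s) (𝓕.average D w t) ≤ ENNReal.ofReal a := by
      refine ENNReal.le_of_forall_pos_le_add fun ε hε _ => ?_
      obtain ⟨C2, hC2⟩ := H'.average_le hD (s := t) (δ := a) (ε := a + ε) t.2 ha0
        (by have : (0:ℝ) < ε := hε; linarith)
      have hta : (t:ℝ) + a = s + η := by rw [ha]; ring
      rw [hta] at hC2
      have h2 : dTo D (𝓔.average D w s) (𝓕.average D w t) ≤ ((a.toNNReal + ε : ℝ≥0) : ℝ≥0∞) := by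
        refine iInf₂_le (a.toNNReal + ε : ℝ≥0) ⟨C1 * C2, fun v => ?_⟩
        have e1 : ((a.toNNReal + ε : ℝ≥0) : ℝ) = a + ε := by
          rw [NNReal.coe_add, Real.coe_toNNReal a ha0]
        rw [e1]
        calc 𝓔.average D w s v ≤ C1 * 𝓕.averageE D w (s + η) (𝓕.ι v) := hC1 v
          _ ≤ C1 * (C2 * 𝓕.averageE D w t (𝓕.ι (D (a + ε) v))) := by gcongr; exact hC2 v
          _ = _ := by rw [← mul_assoc]; push_cast; rfl
      rw [ENNReal.coe_add] at h2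
      exact h2
    refine h1.trans ?_
    rw [edist_dist, NNReal.dist_eq, ← ENNReal.ofReal_coe_nnreal (p := η),
      ← ENNReal.ofReal_add (abs_nonneg ((s:ℝ) - t)) (NNReal.coe_nonneg η)]
    apply ENNReal.ofReal_le_ofReal
    rw [ha]
    linarith [le_abs_self ((s:ℝ) - t)]

/-- Sanity check: `p_s^G ≲ p_s`. -/
theorem average_dominated (𝓔 : Globalization M E) (hK : IsCompact (K : Set G))
    (hX : ∀ i t, X i t ∈ K) (hw : IsWeight w) (h𝓔 : 𝓔.InNorm w)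
    {D : ℝ → V →ₗ[ℂ] V} (hD : IsSobolevFamily (casimir M X) D) (s : ℝ≥0) :
    Dominated (𝓔.average D w s) fun v => 𝓔.nrm (D s v) := by
  obtain ⟨κ, b, c, W, H, -⟩ := exists_ctx 𝓔 𝓔 hK hX hw h𝓔 h𝓔
  refine ⟨(w 1).toNNReal, fun v => ?_⟩
  have h1 := 𝓔.averageE_le_sobolev_one D (w := w) (s := s) (𝓔.ι v)
  rw [H.sobolev_ι hD (NNReal.coe_nonneg s)] at h1
  exact h1

/-- Sanity check: `p_s^G` is the largest norm of the class `Norm(V, w)` dominated by `p_s`. -/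
theorem dominated_average (𝓔 : Globalization M E) (𝓕 : Globalization M F)
    (hK : IsCompact (K : Set G))
    (hG : Subgroup.closure ((K : Set G) ∪
      {g | ∃ (X : Multiplicative ℝ →ₜ* G) (t : ℝ), X (Multiplicative.ofAdd t) = g}) = ⊤)
    (hX : ∀ i t, X i t ∈ K) (hw : IsWeight w) (h𝓔 : 𝓔.InNorm w) (h𝓕 : 𝓕.InNorm w)
    {D : ℝ → V →ₗ[ℂ] V} (hD : IsSobolevFamily (casimir M X) D) (s : ℝ≥0)
    (hdom : Dominated 𝓕.nrm fun v => 𝓔.nrm (D s v)) : Dominated 𝓕.nrm (𝓔.average D w s) := by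
  obtain ⟨κ, b, c, W, H, H'⟩ := exists_ctx 𝓔 𝓕 hK hX hw h𝓔 h𝓕
  obtain ⟨C, hC⟩ := average_compare H H' hG hD s.2 (le_refl (0:ℝ)) hdom
  have hW := H.W_pos
  have h0 : ∀ x : F, ‖x‖ₑ ≤ ENNReal.ofReal W * 𝓕.averageE D w 0 x := by
    intro x
    refine 𝓕.averageE_lower D (F := fun x => ‖x‖ₑ) (by simp) (fun x y => enorm_add_le _ _)
      (by simpa using hW) ENNReal.ofReal_ne_top (fun g x => ?_) x
    rcases eq_or_ne (𝓕.sobolev D 0 (𝓕.ρ g x)) ⊤ with htop | htop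
    · rw [htop, ENNReal.mul_top, ENNReal.mul_top]
      · exact le_top
      · simpa using hW
      · simpa using H.wt.pos g⁻¹
    obtain ⟨y, hy, hy2⟩ := H'.exists_of_sobolev_lt_top hD le_rfl (lt_top_iff_ne_top.2 htop)
    have h1 : Top 𝓕 b c (ap (-(0 / 2))) y = y := by
      have : ap (-(0 / 2)) = fun _ => 1 := by ext x; simp [ap]
      rw [this, H'.Top_one]
    rw [h1] at hy
    have hx : x = 𝓕.ρ g⁻¹ (𝓕.ρ g x) := by
      rw [← mul_apply_eq_comp, ← map_mul, inv_mul_cancel, map_one]; rfl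
    rw [hy2, ← hy]
    conv_lhs => rw [hx]
    have h2 := H'.rho_le g⁻¹ (𝓕.ρ g x)
    rw [← ofReal_norm, ← ofReal_norm, ← ENNReal.ofReal_mul (H.wt.pos _).le,
      ← ENNReal.ofReal_mul hW.le, ← mul_assoc]
    exact ENNReal.ofReal_le_ofReal h2
  refine ⟨W.toNNReal * C, fun v => ?_⟩
  have h1 := hC v
  rw [zero_add] at h1
  calc 𝓕.nrm v ≤ ENNReal.ofReal W * 𝓕.averageE D w 0 (𝓕.ι v) := h0 _
    _ ≤ ENNReal.ofReal W * (C * 𝓔.averageE D w s (𝓔.ι v)) := by gcongr; exact h1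
    _ = _ := by rw [← mul_assoc, ENNReal.coe_mul]; rfl

/-- `Φ` is 1-Lipschitz. -/
theorem sobDist_average_le (𝓔 : Globalization M E) (𝓕 : Globalization M F)
    (hK : IsCompact (K : Set G))
    (hG : Subgroup.closure ((K : Set G) ∪
      {g | ∃ (X : Multiplicative ℝ →ₜ* G) (t : ℝ), X (Multiplicative.ofAdd t) = g}) = ⊤)
    (hX : ∀ i t, X i t ∈ K) (hw : IsWeight w) (h𝓔 : 𝓔.InNorm w) (h𝓕 : 𝓕.InNorm w)
    {D : ℝ → V →ₗ[ℂ] V} (hD : IsSobolevFamily (casimir M X) D) (s t : ℝ≥0) :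
    sobDist D (𝓔.average D w s) (𝓕.average D w t) ≤ edist s t + sobDist D 𝓔.nrm 𝓕.nrm := by
  unfold sobDist
  refine max_le ?_ ?_
  · exact (dTo_average_le 𝓔 𝓕 hK hG hX hw h𝓔 h𝓕 hD s t).trans
      (add_le_add le_rfl (le_max_left _ _))
  · rw [edist_comm]
    exact (dTo_average_le 𝓕 𝓔 hK hG hX hw h𝓕 h𝓔 hD t s).trans
      (add_le_add le_rfl (le_max_right _ _))

end Pool.Agent.H1.SobAvg
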