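import Pool.Agent.H1.SobAvg.Sob

namespace Pool.Agent.H1.SobAvg

open Filter Topology
open scoped ENNReal NNReal

universe v

variable {G : Type*} [Group G] [TopologicalSpace G] [IsTopologicalGroup G] {K : Subgroup G}
  {V : Type v} [AddCommGroup V] [Module ℂ V] {M : GKModule K V}
  {E : Type*} [NormedAddCommGroup E] [NormedSpace ℂ E] [CompleteSpace E]
  {κ : Type*} {b : Module.Basis κ ℂ V} {c : κ → ℝ}

theorem toReal_smul_le {a : ℂ} {x y : ℝ≥0∞} (hy : y ≠ ⊤) (h : x ≤ ‖a‖ₑ * y) :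
    x.toReal ≤ ‖a‖ * y.toReal := by
  have := ENNReal.toReal_mono (ENNReal.mul_ne_top enorm_ne_top hy) h
  rwa [ENNReal.toReal_mul, toReal_enorm] at this

namespace Ctx

variable {𝓔 : Globalization M E} {w : G → ℝ} {m : ℕ} {X : Fin m → (Multiplicative ℝ →ₜ* G)}
  {W : ℝ} (H : Ctx 𝓔 w X b c W) {D : ℝ → V →ₗ[ℂ] V} (hD : IsSobolevFamily (casimir M X) D)
include H hD

theorem averageE_ι_ne_top {S : ℝ} (hS : 0 ≤ S) (v : V) : 𝓔.averageE D w S (𝓔.ι v) ≠ ⊤ := by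
  refine ne_top_of_le_ne_top ?_ (𝓔.averageE_le_sobolev_one D (w := w) (s := S) (𝓔.ι v))
  rw [H.sobolev_ι hD hS]
  exact ENNReal.mul_ne_top ENNReal.ofReal_ne_top enorm_ne_top

theorem averageE_B_le {S : ℝ} (hS : 0 ≤ S) (y : E) :
    𝓔.averageE D w S (Top 𝓔 b c (ap (-(S / 2))) y) ≤ ENNReal.ofReal (W * ‖y‖) := by
  refine (𝓔.averageE_le_sobolev_one D (w := w) (s := S) _).trans ?_
  rw [H.sobolev_B hD hS, ENNReal.ofReal_mul H.W_pos.le, ofReal_norm]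
  gcongr
  exact H.w_le 1 K.one_mem

theorem averageE_B_ne_top {S : ℝ} (hS : 0 ≤ S) (y : E) :
    𝓔.averageE D w S (Top 𝓔 b c (ap (-(S / 2))) y) ≠ ⊤ :=
  ne_top_of_le_ne_top ENNReal.ofReal_ne_top (H.averageE_B_le hD hS y)

/-- the averaged norm as a real seminorm on `V` -/
theorem exists_qV {S : ℝ} (hS : 0 ≤ S) : ∃ q : Seminorm ℂ V,
    (∀ v, q v = (𝓔.averageE D w S (𝓔.ι v)).toReal) ∧ ∀ k v, q (M.actK k v) ≤ W * q v := by
  refine ⟨Seminorm.ofSMulLE (fun v => (𝓔.averageE D w S (𝓔.ι v)).toReal) ?_ ?_ ?_, fun v => rfl, ?_⟩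
  · simp [𝓔.averageE_zero D]
  · intro x y
    rw [map_add, ← ENNReal.toReal_add (H.averageE_ι_ne_top hD hS x) (H.averageE_ι_ne_top hD hS y)]
    exact ENNReal.toReal_mono (ENNReal.add_ne_top.2 ⟨H.averageE_ι_ne_top hD hS x,
      H.averageE_ι_ne_top hD hS y⟩) (𝓔.averageE_add_le D _ _)
  · intro a x
    rw [map_smul]
    exact toReal_smul_le (H.averageE_ι_ne_top hD hS x) (𝓔.averageE_smul_le D a _)
  · intro k v
    show (𝓔.averageE D w S (𝓔.ι (M.actK k v))).toReal ≤ W * (𝓔.averageE D w S (𝓔.ι v)).toReal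
    have h1 := 𝓔.averageE_rho_le D H.wt (s := S) (k : G) (𝓔.ι v)
    rw [← 𝓔.map_actK] at h1
    have h2 := ENNReal.toReal_mono (ENNReal.mul_ne_top ENNReal.ofReal_ne_top
      (H.averageE_ι_ne_top hD hS v)) h1
    rw [ENNReal.toReal_mul, ENNReal.toReal_ofReal (H.wt.pos _).le] at h2
    refine h2.trans ?_
    gcongr
    exact H.w_le k k.2

/-- the averaged norm as a real seminorm on the Sobolev space -/
theorem exists_QE {S : ℝ} (hS : 0 ≤ S) : ∃ Q : Seminorm ℂ E,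
    (∀ y, Q y = (𝓔.averageE D w S (Top 𝓔 b c (ap (-(S / 2))) y)).toReal) ∧
    ∀ y, Q y ≤ W * ‖y‖ := by
  refine ⟨Seminorm.ofSMulLE
    (fun y => (𝓔.averageE D w S (Top 𝓔 b c (ap (-(S / 2))) y)).toReal) ?_ ?_ ?_, fun v => rfl, ?_⟩
  · simp [𝓔.averageE_zero D]
  · intro x y
    rw [map_add, ← ENNReal.toReal_add (H.averageE_B_ne_top hD hS x) (H.averageE_B_ne_top hD hS y)]
    exact ENNReal.toReal_mono (ENNReal.add_ne_top.2 ⟨H.averageE_B_ne_top hD hS x,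
      H.averageE_B_ne_top hD hS y⟩) (𝓔.averageE_add_le D _ _)
  · intro a x
    rw [map_smul]
    exact toReal_smul_le (H.averageE_B_ne_top hD hS x) (𝓔.averageE_smul_le D a _)
  · intro y
    have h2 := ENNReal.toReal_mono ENNReal.ofReal_ne_top (H.averageE_B_le hD hS y)
    rwa [ENNReal.toReal_ofReal (by have := H.W_pos; positivity)] at h2

omit H hD [CompleteSpace E] in
theorem continuous_of_le_norm (Q : Seminorm ℂ E) (hQ : ∀ y, Q y ≤ W * ‖y‖) : Continuous Q := by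
  have h1 : ∀ x y, |Q x - Q y| ≤ W * ‖x - y‖ := fun x y =>
    (abs_sub_map_le_sub Q x y).trans (hQ _)
  refine Metric.continuous_iff.2 fun x ε hε => ?_
  refine ⟨ε / (|W| + 1), by positivity, fun y hy => ?_⟩
  rw [Real.dist_eq]
  rw [dist_eq_norm] at hy
  calc |Q y - Q x| ≤ W * ‖y - x‖ := h1 y x
    _ ≤ (|W| + 1) * ‖y - x‖ := by gcongr; linarith [le_abs_self W]
    _ < (|W| + 1) * (ε / (|W| + 1)) := by gcongr
    _ = ε := by field_simp

theorem Q_Top_le {S : ℝ} (hS : 0 ≤ S) {Q : Seminorm ℂ E}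
    (hQ : ∀ y, Q y = (𝓔.averageE D w S (Top 𝓔 b c (ap (-(S / 2))) y)).toReal)
    (hQ' : ∀ y, Q y ≤ W * ‖y‖) {f : ℝ → ℝ} {A : ℝ} (hf : UMB b c f A) (y : E) :
    Q (Top 𝓔 b c f y) ≤ A * W * Q y := by
  obtain ⟨q, hq1, hq2⟩ := H.exists_qV hD hS
  have hQc := continuous_of_le_norm Q hQ'
  have hU := UMB.ap_neg (b := b) H.nonneg (θ := S / 2) (by positivity)
  refine 𝓔.denseRange_ι.induction_on (p := fun y => Q (Top 𝓔 b c f y) ≤ A * W * Q y) y ?_ ?_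
  · exact isClosed_le (hQc.comp (Top 𝓔 b c f).continuous) (continuous_const.mul hQc)
  · intro u
    have e1 : ∀ v, Q (𝓔.ι v) = q (fc b c (ap (-(S / 2))) v) := by
      intro v
      rw [hQ, H.Top_ι hU, hq1]
    rw [H.Top_ι hf, e1, e1]
    have e2 : fc b c (ap (-(S / 2))) (fc b c f u) = fc b c f (fc b c (ap (-(S / 2))) u) := by
      rw [← fc_mul, ← fc_mul]
      congr 2
      ext x
      ring
    rw [e2]
    exact H.fc_le hf q hq2 _

/-- step (4a) -/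
theorem Q_rho_le {S : ℝ} (hS : 0 ≤ S) {Q : Seminorm ℂ E}
    (hQ : ∀ y, Q y = (𝓔.averageE D w S (Top 𝓔 b c (ap (-(S / 2))) y)).toReal)
    (hQ' : ∀ y, Q y ≤ W * ‖y‖) {t : ℝ} (ht : 0 < t) {N : ℕ} (hN : 1 ≤ N) (hSN : S / 2 ≤ N)
    (g : G) (y : E) :
    Q (Top 𝓔 b c (fun x => ap (S / 2) x * rp t N x) (𝓔.ρ g⁻¹ (Top 𝓔 b c (ap (-(S / 2))) y))) ≤
      W * w g⁻¹ * ‖y‖ := by
  have hQc := continuous_of_le_norm Q hQ'
  have hS2 : 0 ≤ S / 2 := by positivity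
  have hU := UMB.ap_neg (b := b) H.nonneg (θ := S / 2) hS2
  refine 𝓔.denseRange_ι.induction_on (p := fun y => Q (Top 𝓔 b c (fun x => ap (S / 2) x * rp t N x)
    (𝓔.ρ g⁻¹ (Top 𝓔 b c (ap (-(S / 2))) y))) ≤ W * w g⁻¹ * ‖y‖) y ?_ ?_
  · exact isClosed_le (hQc.comp (by fun_prop)) (by fun_prop)
  · intro u
    rw [H.Top_ι hU]
    obtain ⟨x', hx'⟩ := H.exists_rho_eq_B g⁻¹ (fc b c (ap (-(S / 2))) u) hS2
    rw [hx', H.Top_rp_eq' ht hS2 hN hSN]
    refine (H.Q_Top_le hD hS hQ hQ' (UMB.rp H.nonneg ht.le N) x').trans ?_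
    rw [one_mul, mul_assoc]
    have hW := H.W_pos
    gcongr
    rw [hQ, ← hx']
    have h1 := 𝓔.averageE_le_sobolev D (w := w) (s := S) g (𝓔.ι (fc b c (ap (-(S / 2))) u))
    rw [H.sobolev_ι hD hS, D_eq H.cas hD, fc_ap_ap_neg H.nonneg] at h1
    have h2 := ENNReal.toReal_mono (ENNReal.mul_ne_top ENNReal.ofReal_ne_top enorm_ne_top) h1
    rwa [ENNReal.toReal_mul, ENNReal.toReal_ofReal (H.wt.pos _).le, toReal_enorm] at h2

/-- Main estimate. -/
theorem averageE_Top_le {s δ : ℝ} (hs : 0 ≤ s) (hδ : 0 ≤ δ) {N : ℕ} (hN : 1 ≤ N)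
    (hSN : (s + δ) / 2 ≤ N) {t : ℝ} (ht : 0 < t) (x : E) :
    𝓔.averageE D w (s + δ) (Top 𝓔 b c (rp t N) x) ≤
      ENNReal.ofReal ((2 ^ N * (2 * N) ^ N * W ^ 6 + 4 ^ N * W ^ 3) * t ^ (-(δ / 2))) *
        𝓔.averageE D w s x := by
  have hW := H.W_pos
  have hN0 : (0:ℝ) < N := by exact_mod_cast hN
  have hS : 0 ≤ s + δ := by positivity
  obtain ⟨Q, hQ, hQ'⟩ := H.exists_QE hD hS
  set Cst : ℝ := 2 ^ N * (2 * N) ^ N * W ^ 6 + 4 ^ N * W ^ 3 with hCst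
  have hCpos : 0 < Cst := by positivity
  have hQe : ∀ y, 𝓔.averageE D w (s + δ) (Top 𝓔 b c (ap (-((s + δ) / 2))) y) =
      ENNReal.ofReal (Q y) := by
    intro y
    rw [hQ, ENNReal.ofReal_toReal (H.averageE_B_ne_top hD hS y)]
  refine 𝓔.averageE_lower D (F := fun x => 𝓔.averageE D w (s + δ) (Top 𝓔 b c (rp t N) x))
    ?_ ?_ ?_ ENNReal.ofReal_ne_top ?_ x
  · simp [𝓔.averageE_zero D]
  · intro x y
    simp only [map_add]
    exact 𝓔.averageE_add_le D _ _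
  · simp only [ne_eq, ENNReal.ofReal_eq_zero, not_le]
    positivity
  intro g x
  rcases eq_or_ne (𝓔.sobolev D s (𝓔.ρ g x)) ⊤ with htop | htop
  · rw [htop, ENNReal.mul_top, ENNReal.mul_top]
    · exact le_top
    · simp only [ne_eq, ENNReal.ofReal_eq_zero, not_le]
      positivity
    · simpa using H.wt.pos g⁻¹
  obtain ⟨y, hy, hy2⟩ := H.exists_of_sobolev_lt_top hD hs (lt_top_iff_ne_top.2 htop)
  rw [hy2]
  have hx : x = 𝓔.ρ g⁻¹ (Top 𝓔 b c (ap (-(s / 2))) y) := by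
    rw [← hy, ← mul_apply_eq_comp, ← map_mul, inv_mul_cancel, map_one]; rfl
  have hs2 : 0 ≤ s / 2 := by positivity
  have hδ2 : 0 ≤ δ / 2 := by positivity
  have hS2 : 0 ≤ (s + δ) / 2 := by positivity
  have hsN : s / 2 ≤ N := by linarith
  have hδN : δ / 2 ≤ N := by linarith
  have hUs := UMB.ap_neg (b := b) H.nonneg hs2
  have hUS := UMB.ap_neg (b := b) H.nonneg hS2
  have hcut := UMB.ap_cut (b := b) H.nonneg ht hs2 hN hsN
  have hsm := UMB.ap_smooth (b := b) H.nonneg ht hδ2 hN hδN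
  have hrp := UMB.rp (b := b) H.nonneg ht.le N
  have haprp := UMB.ap_rp (b := b) H.nonneg ht hS2 hN hSN
  set y1 := Top 𝓔 b c (fun x => ap (-(s / 2)) x * (1 - rp t N x) ^ N) y with hy1
  set y' := Top 𝓔 b c (fun x => ap (δ / 2) x * (1 - (1 - rp t N x) ^ N)) y with hy'
  have hdec : Top 𝓔 b c (ap (-(s / 2))) y = y1 + Top 𝓔 b c (ap (-((s + δ) / 2))) y' := by
    have e1 := H.Top_mul hUS hsm (hUS.mul hsm) (fun _ _ => rfl) y
    have e2 := H.Top_sub hUs hcut (hUS.mul hsm) (fun x hx => ?_) y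
    · rw [hy', ← e1, e2, hy1]; abel
    · rw [← mul_assoc, ← ap_add hx]
      have : -((s + δ) / 2) + δ / 2 = -(s / 2) := by ring
      rw [this]; ring
  have hx1 : Top 𝓔 b c (rp t N) x = Top 𝓔 b c (ap (-((s + δ) / 2)))
        (Top 𝓔 b c (fun x => ap ((s + δ) / 2) x * rp t N x) (𝓔.ρ g⁻¹ y1)) +
      Top 𝓔 b c (ap (-((s + δ) / 2))) (Top 𝓔 b c (fun x => ap ((s + δ) / 2) x * rp t N x)
        (𝓔.ρ g⁻¹ (Top 𝓔 b c (ap (-((s + δ) / 2))) y'))) := by
    rw [hx, hdec, map_add, map_add, ← H.Top_rp_eq ht hS2 hN hSN, ← H.Top_rp_eq ht hS2 hN hSN]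
  have b1 : ‖y1‖ ≤ (2 * N) ^ N * t ^ (s / 2) * W ^ 2 * ‖y‖ := H.Top_le hcut y
  have b2 : ‖y'‖ ≤ 4 ^ N * t ^ (-(δ / 2)) * W ^ 2 * ‖y‖ := H.Top_le hsm y
  have b3 : ‖𝓔.ρ g⁻¹ y1‖ ≤ W * w g⁻¹ * ‖y1‖ := H.rho_le _ _
  have b4 := H.Top_le haprp (𝓔.ρ g⁻¹ y1)
  have b5 := hQ' (Top 𝓔 b c (fun x => ap ((s + δ) / 2) x * rp t N x) (𝓔.ρ g⁻¹ y1))
  have b6 := H.Q_rho_le hD hS hQ hQ' ht hN hSN g y'
  have hwg := H.wt.pos g⁻¹
  have c1 : Q (Top 𝓔 b c (fun x => ap ((s + δ) / 2) x * rp t N x) (𝓔.ρ g⁻¹ y1)) ≤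
      (2 ^ N * (2 * N) ^ N * W ^ 6) * t ^ (-(δ / 2)) * (w g⁻¹ * ‖y‖) := by
    have e1 : t ^ (-((s + δ) / 2)) * t ^ (s / 2) = t ^ (-(δ / 2)) := by
      rw [← Real.rpow_add ht]; congr 1; ring
    calc Q (Top 𝓔 b c (fun x => ap ((s + δ) / 2) x * rp t N x) (𝓔.ρ g⁻¹ y1))
        ≤ W * (2 ^ N * t ^ (-((s + δ) / 2)) * W ^ 2 * (W * w g⁻¹ *
          ((2 * N) ^ N * t ^ (s / 2) * W ^ 2 * ‖y‖))) := by
          refine b5.trans ?_
          gcongr
          refine b4.trans ?_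
          gcongr
          refine b3.trans ?_
          gcongr
      _ = (2 ^ N * (2 * N) ^ N * W ^ 6) * (t ^ (-((s + δ) / 2)) * t ^ (s / 2)) *
          (w g⁻¹ * ‖y‖) := by ring
      _ = _ := by rw [e1]
  have c2 : Q (Top 𝓔 b c (fun x => ap ((s + δ) / 2) x * rp t N x)
        (𝓔.ρ g⁻¹ (Top 𝓔 b c (ap (-((s + δ) / 2))) y'))) ≤
      (4 ^ N * W ^ 3) * t ^ (-(δ / 2)) * (w g⁻¹ * ‖y‖) := by
    refine b6.trans ?_
    calc W * w g⁻¹ * ‖y'‖ ≤ W * w g⁻¹ * (4 ^ N * t ^ (-(δ / 2)) * W ^ 2 * ‖y‖) := by gcongr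
      _ = _ := by ring
  show 𝓔.averageE D w (s + δ) (Top 𝓔 b c (rp t N) x) ≤ _
  rw [hx1]
  refine (𝓔.averageE_add_le D _ _).trans ?_
  rw [hQe, hQe, ← ENNReal.ofReal_add (apply_nonneg _ _) (apply_nonneg _ _),
    ← ofReal_norm, ← ENNReal.ofReal_mul hwg.le, ← ENNReal.ofReal_mul (by positivity)]
  apply ENNReal.ofReal_le_ofReal
  refine (add_le_add c1 c2).trans (le_of_eq ?_)
  rw [hCst]; ring

/-- Comparison of `p_{s+δ}^G` with the `ε`-shift of `p_s^G`, for `0 ≤ δ < ε ≤ 2`. -/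
theorem average_le_small {s δ ε : ℝ} (hs : 0 ≤ s) (hδ : 0 ≤ δ) (hδε : δ < ε) (hε : ε ≤ 2) :
    ∃ C : ℝ≥0, ∀ v, 𝓔.averageE D w (s + δ) (𝓔.ι v) ≤ C * 𝓔.averageE D w s (𝓔.ι (D ε v)) := by
  have hW := H.W_pos
  obtain ⟨N, hN'⟩ := exists_nat_ge (max 1 ((s + δ) / 2))
  have hN : 1 ≤ N := by exact_mod_cast (le_max_left _ _).trans hN'
  have hN0 : (0:ℝ) < N := by exact_mod_cast hN
  have hSN : (s + δ) / 2 ≤ N := (le_max_right _ _).trans hN'
  have hS : 0 ≤ s + δ := by positivity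
  obtain ⟨q, hq, hq'⟩ := H.exists_qV hD hS
  obtain ⟨q0, hq0, -⟩ := H.exists_qV hD hs
  set Cst : ℝ := 2 ^ N * (2 * N) ^ N * W ^ 6 + 4 ^ N * W ^ 3 with hCst
  have hCpos : 0 < Cst := by positivity
  -- real form of the main estimate
  have main : ∀ t : ℝ, 0 < t → ∀ u : V, q (fc b c (rp t N) u) ≤ Cst * t ^ (-(δ / 2)) * q0 u := by
    intro t ht u
    have h1 := H.averageE_Top_le hD hs hδ hN hSN ht (𝓔.ι u)
    rw [H.Top_ι (UMB.rp H.nonneg ht.le N)] at h1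
    have h2 := ENNReal.toReal_mono (ENNReal.mul_ne_top ENNReal.ofReal_ne_top
      (H.averageE_ι_ne_top hD hs u)) h1
    rwa [ENNReal.toReal_mul, ENNReal.toReal_ofReal (by positivity), ← hq, ← hq0] at h2
  set θ := ε / 2 with hθ
  have hθ0 : 0 ≤ θ := by rw [hθ]; linarith
  have hθ1 : θ ≤ 1 := by rw [hθ]; linarith
  set r : ℝ := (1 / 2 : ℝ) ^ (θ - δ / 2) with hr
  have hr0 : 0 < r := by positivity
  have hr1 : r < 1 := Real.rpow_lt_one (by norm_num) (by norm_num) (by rw [hθ]; linarith)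
  set A : ℝ := W * Cst + 2 * N * W * Cst / (1 - r) with hA
  have hApos : 0 ≤ A := by
    have : 0 < 1 - r := by linarith
    positivity
  have key : ∀ v : V, q v ≤ A * q0 (D ε v) := by
    intro v
    set u := D ε v with hu
    have hvu : v = fc b c (ap (-θ)) u := by
      rw [hu, D_eq H.cas hD, fc_ap_neg_ap H.nonneg]
    have hq0u : 0 ≤ q0 u := apply_nonneg _ _
    -- dyadic steps
    have step0 : q (fc b c (rp 1 N) v) ≤ W * Cst * q0 u := by
      rw [hvu, ← fc_mul, fc_congr b H.nonneg (g := fun x => ap (-θ) x * rp 1 N x)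
        (fun x _ => mul_comm _ _), fc_mul]
      have h1 := H.fc_le (UMB.ap_neg H.nonneg hθ0) q hq' (fc b c (rp 1 N) u)
      have h2 := main 1 one_pos u
      rw [Real.one_rpow, mul_one] at h2
      calc _ ≤ 1 * W * q (fc b c (rp 1 N) u) := h1
        _ ≤ 1 * W * (Cst * q0 u) := by gcongr
        _ = _ := by ring
    have stepj : ∀ t : ℝ, 0 < t → q (fc b c (rp t N) v - fc b c (rp (2 * t) N) v) ≤
        2 * N * W * Cst * t ^ (θ - δ / 2) * q0 u := by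
      intro t ht
      have e1 : fc b c (rp t N) v - fc b c (rp (2 * t) N) v =
          fc b c (tele N θ t) (fc b c (rp t N) u) := by
        rw [← fc_sub, hvu, ← fc_mul, ← fc_mul]
        rw [fc_congr b H.nonneg]
        intro x hx
        have := tele_spec N (θ := θ) ht hx
        simp only [rp, ap]
        rw [this]; ring
      rw [e1]
      have h1 := H.fc_le (UMB.tele H.nonneg ht hθ0 hθ1 N) q hq' (fc b c (rp t N) u)
      have h2 := main t ht u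
      have e2 : t ^ θ * t ^ (-(δ / 2)) = t ^ (θ - δ / 2) := by
        rw [← Real.rpow_add ht]; congr 1
      calc _ ≤ 2 * N * t ^ θ * W * q (fc b c (rp t N) u) := h1
        _ ≤ 2 * N * t ^ θ * W * (Cst * t ^ (-(δ / 2)) * q0 u) := by gcongr
        _ = 2 * N * W * Cst * (t ^ θ * t ^ (-(δ / 2))) * q0 u := by ring
        _ = _ := by rw [e2]
    have hJ : ∀ J : ℕ, q (fc b c (rp ((1 / 2 : ℝ) ^ J) N) v) ≤
        (W * Cst + 2 * N * W * Cst * ∑ j ∈ Finset.range J, r ^ (j + 1)) * q0 u := by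
      intro J
      induction J with
      | zero => simpa using step0
      | succ J ih =>
        have h1 := stepj ((1 / 2 : ℝ) ^ (J + 1)) (by positivity)
        have e1 : 2 * (1 / 2 : ℝ) ^ (J + 1) = (1 / 2 : ℝ) ^ J := by rw [pow_succ]; ring
        have e2 : ((1 / 2 : ℝ) ^ (J + 1)) ^ (θ - δ / 2) = r ^ (J + 1) := by
          rw [hr, ← Real.rpow_natCast, ← Real.rpow_natCast, ← Real.rpow_mul (by norm_num),
            ← Real.rpow_mul (by norm_num), mul_comm]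
        rw [e1, e2] at h1
        have h2 : q (fc b c (rp ((1 / 2 : ℝ) ^ (J + 1)) N) v) ≤
            q (fc b c (rp ((1 / 2 : ℝ) ^ J) N) v) +
            q (fc b c (rp ((1 / 2 : ℝ) ^ (J + 1)) N) v - fc b c (rp ((1 / 2 : ℝ) ^ J) N) v) := by
          have := map_add_le_add q (fc b c (rp ((1 / 2 : ℝ) ^ J) N) v)
            (fc b c (rp ((1 / 2 : ℝ) ^ (J + 1)) N) v - fc b c (rp ((1 / 2 : ℝ) ^ J) N) v)
          rwa [add_sub_cancel] at this
        rw [Finset.sum_range_succ]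
        refine (h2.trans (add_le_add ih h1)).trans (le_of_eq ?_)
        ring
    have hbound : ∀ J : ℕ, q (fc b c (rp ((1 / 2 : ℝ) ^ J) N) v) ≤ A * q0 u := by
      intro J
      refine (hJ J).trans ?_
      have h1 : ∑ j ∈ Finset.range J, r ^ (j + 1) ≤ 1 / (1 - r) := by
        have h2 : ∑ j ∈ Finset.range J, r ^ (j + 1) ≤ ∑ j ∈ Finset.range J, r ^ j :=
          Finset.sum_le_sum fun j _ => pow_le_pow_of_le_one hr0.le hr1.le (Nat.le_succ j)
        have h3 : ∑ j ∈ Finset.range J, r ^ j ≤ 1 / (1 - r) := by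
          have := (hasSum_geometric_of_lt_one hr0.le hr1).summable.sum_le_tsum (Finset.range J)
            (fun j _ => by positivity)
          rwa [tsum_geometric_of_lt_one hr0.le hr1, ← one_div] at this
        exact h2.trans h3
      have h4 : 0 ≤ 2 * N * W * Cst := by positivity
      rw [hA]
      gcongr
      calc 2 * N * W * Cst * ∑ j ∈ Finset.range J, r ^ (j + 1) ≤ 2 * N * W * Cst * (1 / (1 - r)) := by
            gcongr
        _ = _ := by ring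
    have hlim := tendsto_fc (b := b) (c := c) q (f := fun J : ℕ => rp ((1 / 2 : ℝ) ^ J) N)
      (fun i => tendsto_rp N (c i)
        (tendsto_pow_atTop_nhds_zero_of_lt_one (by norm_num) (by norm_num))) v
    have hlim2 := hlim.const_add (A * q0 u)
    rw [add_zero] at hlim2
    refine ge_of_tendsto hlim2 (Eventually.of_forall fun J => ?_)
    have h5 := map_add_le_add q (fc b c (rp ((1 / 2 : ℝ) ^ J) N) v)
      (v - fc b c (rp ((1 / 2 : ℝ) ^ J) N) v)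
    rw [add_sub_cancel, ← map_neg_eq_map q (v - _), neg_sub] at h5
    exact h5.trans (add_le_add (hbound J) le_rfl)
  refine ⟨A.toNNReal, fun v => ?_⟩
  have h1 := key v
  rw [hq, hq0] at h1
  rw [← ENNReal.ofReal_toReal (H.averageE_ι_ne_top hD hS v),
    ← ENNReal.ofReal_toReal (H.averageE_ι_ne_top hD hs (D ε v))]
  show _ ≤ ENNReal.ofReal A * _
  rw [← ENNReal.ofReal_mul hApos]
  exact ENNReal.ofReal_le_ofReal h1

end Ctx

end Pool.Agent.H1.SobAvg
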