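import Pool.Agent.H1.SobAvg.Binom

namespace Pool.Agent.H1.SobAvg

open Filter Topology

variable {V : Type*} [AddCommGroup V] [Module ℂ V] {κ : Type*} (b : Module.Basis κ ℂ V) (c : κ → ℝ)

/-- functional calculus of the diagonal operator with eigenvalues `c i` on `b i` -/
noncomputable def fc (f : ℝ → ℝ) : V →ₗ[ℂ] V := b.constr ℂ fun i => ((f (c i) : ℝ) : ℂ) • b i

theorem fc_basis (f : ℝ → ℝ) (i : κ) : fc b c f (b i) = ((f (c i) : ℝ) : ℂ) • b i := by
  simp [fc]

theorem fc_mul (f g : ℝ → ℝ) (v : V) :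
    fc b c (fun x => f x * g x) v = fc b c f (fc b c g v) := by
  have : fc b c (fun x => f x * g x) = fc b c f ∘ₗ fc b c g :=
    b.ext fun i => by
      rw [fc_basis, LinearMap.comp_apply, fc_basis, map_smul, fc_basis, smul_smul, mul_comm]
      push_cast
      rfl
  rw [this]; rfl

theorem fc_add (f g : ℝ → ℝ) (v : V) :
    fc b c (fun x => f x + g x) v = fc b c f v + fc b c g v := by
  have : fc b c (fun x => f x + g x) = fc b c f + fc b c g :=
    b.ext fun i => by simp [fc_basis, add_smul]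
  rw [this]; rfl

theorem fc_sub (f g : ℝ → ℝ) (v : V) :
    fc b c (fun x => f x - g x) v = fc b c f v - fc b c g v := by
  have : fc b c (fun x => f x - g x) = fc b c f - fc b c g :=
    b.ext fun i => by simp [fc_basis, sub_smul]
  rw [this]; rfl

theorem fc_const (r : ℝ) (v : V) : fc b c (fun _ => r) v = (r : ℂ) • v := by
  have : fc b c (fun _ => r) = (r : ℂ) • LinearMap.id :=
    b.ext fun i => by simp [fc_basis]
  rw [this]; rfl

theorem fc_one (v : V) : fc b c (fun _ => 1) v = v := by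
  rw [fc_const]; simp

variable {c} in
theorem fc_congr (hc : ∀ i, 0 ≤ c i) {f g : ℝ → ℝ} (h : ∀ x, 0 ≤ x → f x = g x) :
    fc b c f = fc b c g :=
  b.ext fun i => by simp [fc_basis, h _ (hc i)]

/-- accretivity -/
def Acc (q : Seminorm ℂ V) : Prop :=
  ∀ τ : ℝ, 0 ≤ τ → ∀ u : V, q u ≤ q (u + (τ : ℂ) • fc b c (fun x => x) u)

/-- multiplier bound -/
def MB (q : Seminorm ℂ V) (f : ℝ → ℝ) (M : ℝ) : Prop := ∀ v, q (fc b c f v) ≤ M * q v

variable {b c} {q : Seminorm ℂ V}

theorem MB.mono {f : ℝ → ℝ} {M M' : ℝ} (h : MB b c q f M) (hM : M ≤ M') : MB b c q f M' :=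
  fun v => (h v).trans (mul_le_mul_of_nonneg_right hM (apply_nonneg q v))

theorem MB.congr (hc : ∀ i, 0 ≤ c i) {f g : ℝ → ℝ} {M : ℝ} (h : MB b c q f M)
    (hfg : ∀ x, 0 ≤ x → f x = g x) : MB b c q g M := by
  intro v
  rw [← fc_congr b hc hfg]
  exact h v

theorem MB.mul {f g : ℝ → ℝ} {M N : ℝ} (hM : 0 ≤ M) (hf : MB b c q f M) (hg : MB b c q g N) :
    MB b c q (fun x => f x * g x) (M * N) := by
  intro v
  rw [fc_mul]
  calc q (fc b c f (fc b c g v)) ≤ M * q (fc b c g v) := hf _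
    _ ≤ M * (N * q v) := mul_le_mul_of_nonneg_left (hg v) hM
    _ = M * N * q v := by ring

theorem MB.add {f g : ℝ → ℝ} {M N : ℝ} (hf : MB b c q f M) (hg : MB b c q g N) :
    MB b c q (fun x => f x + g x) (M + N) := by
  intro v
  rw [fc_add, add_mul]
  exact (map_add_le_add q _ _).trans (add_le_add (hf v) (hg v))

theorem MB.sub {f g : ℝ → ℝ} {M N : ℝ} (hf : MB b c q f M) (hg : MB b c q g N) :
    MB b c q (fun x => f x - g x) (M + N) := by
  intro v
  rw [fc_sub, add_mul]
  exact (map_sub_le_add q _ _).trans (add_le_add (hf v) (hg v))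

theorem MB.const (r : ℝ) : MB b c q (fun _ => r) |r| := by
  intro v
  rw [fc_const, map_smul_eq_mul]
  simp

theorem MB.one : MB b c q (fun _ => 1) 1 := by
  simpa using MB.const (b := b) (c := c) (q := q) 1

theorem MB.smul {f : ℝ → ℝ} {M : ℝ} (r : ℝ) (hf : MB b c q f M) :
    MB b c q (fun x => r * f x) (|r| * M) :=
  MB.mul (abs_nonneg r) (MB.const r) hf

theorem MB.pow {f : ℝ → ℝ} {M : ℝ} (hM : 0 ≤ M) (hf : MB b c q f M) (n : ℕ) :
    MB b c q (fun x => f x ^ n) (M ^ n) := by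
  induction n with
  | zero => simpa using MB.one
  | succ n ih =>
    simp only [pow_succ]
    exact MB.mul (by positivity) ih hf

theorem MB.sum {f : ℕ → ℝ → ℝ} {M : ℕ → ℝ} (n : ℕ) (hf : ∀ i < n, MB b c q (f i) (M i)) :
    MB b c q (fun x => ∑ i ∈ Finset.range n, f i x) (∑ i ∈ Finset.range n, M i) := by
  induction n with
  | zero =>
    simpa using MB.const (b := b) (c := c) (q := q) 0
  | succ n ih =>
    simp only [Finset.sum_range_succ]
    exact MB.add (ih fun i hi => hf i (by omega)) (hf n (by omega))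

theorem MB.limit (hc : ∀ i, 0 ≤ c i) {α : Type*} {l : Filter α} [l.NeBot] {f : α → ℝ → ℝ} {g : ℝ → ℝ} {M : α → ℝ} {N : ℝ}
    (hf : ∀ n, MB b c q (f n) (M n)) (hM : Tendsto M l (𝓝 N))
    (hfg : ∀ x, 0 ≤ x → Tendsto (fun n => f n x) l (𝓝 (g x))) : MB b c q g N := by
  intro v
  have h1 : ∀ n, q (fc b c g v) ≤ M n * q v +
      ∑ i ∈ (b.repr v).support, |g (c i) - f n (c i)| * (‖b.repr v i‖ * q (b i)) := by
    intro n
    have h2 : fc b c g v = fc b c (f n) v + fc b c (fun x => g x - f n x) v := by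
      rw [fc_sub]; abel
    rw [h2]
    refine (map_add_le_add q _ _).trans (add_le_add (hf n v) ?_)
    have h3 : fc b c (fun x => g x - f n x) v =
        ∑ i ∈ (b.repr v).support, (b.repr v i) • (((g (c i) - f n (c i) : ℝ) : ℂ) • b i) := by
      rw [fc, Module.Basis.constr_apply, Finsupp.sum]
    rw [h3]
    refine (Finset.le_sum_of_subadditive (f := q) (map_zero q).le (map_add_le_add q) _ _).trans
      (Finset.sum_le_sum fun i _ => ?_)
    rw [map_smul_eq_mul, map_smul_eq_mul, Complex.norm_real, Real.norm_eq_abs]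
    apply le_of_eq
    ring
  have h4 : Tendsto (fun n => M n * q v +
      ∑ i ∈ (b.repr v).support, |g (c i) - f n (c i)| * (‖b.repr v i‖ * q (b i))) l
      (𝓝 (N * q v + ∑ i ∈ (b.repr v).support, |g (c i) - g (c i)| * (‖b.repr v i‖ * q (b i)))) := by
    refine (hM.mul_const _).add (tendsto_finsetSum _ fun i _ => ?_)
    exact ((tendsto_const_nhds.sub (hfg _ (hc i))).abs).mul_const _
  simpa using ge_of_tendsto h4 (Eventually.of_forall h1)

end Pool.Agent.H1.SobAvg
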