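import Pool.Agent.H1.SobAvg.Mult

namespace Pool.Agent.H1.SobAvg

open Filter Topology

variable {V : Type*} [AddCommGroup V] [Module ℂ V] {κ : Type*} {b : Module.Basis κ ℂ V} {c : κ → ℝ}
  {q : Seminorm ℂ V}

theorem MB.resolvent (hc : ∀ i, 0 ≤ c i) (hq : Acc b c q) {l τ : ℝ} (hl : 0 < l) (hτ : 0 ≤ τ) :
    MB b c q (fun x => 1 / (l + τ * x)) (1 / l) := by
  intro v
  set u := fc b c (fun x => 1 / (l + τ * x)) v with hu
  have h1 : v = (l : ℂ) • (u + ((τ / l : ℝ) : ℂ) • fc b c (fun x => x) u) := by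
    rw [smul_add, smul_smul, ← Complex.ofReal_mul, mul_div_cancel₀ _ hl.ne']
    have e1 : v = fc b c (fun x => l * (1 / (l + τ * x)) + τ * (x * (1 / (l + τ * x)))) v := by
      conv_lhs => rw [← fc_one b c v]
      rw [fc_congr b hc]
      intro x hx
      have : 0 < l + τ * x := by positivity
      field_simp
    conv_lhs => rw [e1]
    rw [fc_add b c (fun x => l * (1 / (l + τ * x))) (fun x => τ * (x * (1 / (l + τ * x)))),
      fc_mul b c (fun _ => l) (fun x => 1 / (l + τ * x)),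
      fc_mul b c (fun _ => τ) (fun x => x * (1 / (l + τ * x))), fc_const, fc_const,
      fc_mul b c (fun x => x) (fun x => 1 / (l + τ * x))]
  have h2 := hq (τ / l) (by positivity) u
  have h3 : q v = l * q (u + ((τ / l : ℝ) : ℂ) • fc b c (fun x => x) u) := by
    conv_lhs => rw [h1]
    rw [map_smul_eq_mul, Complex.norm_real, Real.norm_eq_abs, abs_of_pos hl]
  rw [h3, one_div, ← mul_assoc, inv_mul_cancel₀ hl.ne', one_mul]
  exact h2

/-- negative powers -/
theorem MB.negpow (hc : ∀ i, 0 ≤ c i) (hq : Acc b c q) {l τ β : ℝ} (hl : 1 ≤ l) (hτ : 0 ≤ τ)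
    (hβ0 : 0 ≤ β) (hβ1 : β ≤ 1) :
    MB b c q (fun x => (l + τ * x) ^ (-β)) 1 := by
  have hl0 : 0 < l := by linarith
  obtain ⟨cf, c0, cpos, -, hsum⟩ := exists_coeff β hβ0 hβ1
  -- for every h > 0
  have key : ∀ h : ℝ, 0 < h → MB b c q (fun x => ((l + τ * x) / (1 + h * (l + τ * x))) ^ (-β))
      ((l / (1 + h * l)) ^ (-β)) := by
    intro h hh
    have hr0 : (0:ℝ) ≤ 1 / (1 + h * l) := by positivity
    have hr1 : 1 / (1 + h * l) < 1 := by
      rw [div_lt_one (by positivity)]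
      nlinarith [mul_pos hh hl0]
    have hy : MB b c q (fun x => 1 / ((1 + h * l) + (h * τ) * x)) (1 / (1 + h * l)) :=
      MB.resolvent hc hq (by positivity) (by positivity)
    -- partial sums
    have hps : ∀ n : ℕ, MB b c q
        (fun x => ∑ i ∈ Finset.range n, cf i * (1 / ((1 + h * l) + (h * τ) * x)) ^ i)
        (∑ i ∈ Finset.range n, cf i * (1 / (1 + h * l)) ^ i) := by
      intro n
      refine MB.sum n fun i _ => ?_
      have := MB.smul (cf i) (MB.pow hr0 hy i)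
      rwa [abs_of_nonneg (cpos i)] at this
    have hlim : MB b c q (fun x => (1 - 1 / ((1 + h * l) + (h * τ) * x)) ^ (-β))
        ((1 - 1 / (1 + h * l)) ^ (-β)) := by
      refine MB.limit hc hps (hsum _ hr0 hr1).tendsto_sum_nat fun x hx => ?_
      have h1 : (1:ℝ) < (1 + h * l) + (h * τ) * x := by
        have : 0 < h * l := by positivity
        have : 0 ≤ (h * τ) * x := by positivity
        linarith
      exact (hsum _ (by positivity) (by rw [div_lt_one (by positivity)]; exact h1)).tendsto_sum_nat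
    have h2 := MB.smul (h ^ β) hlim
    rw [abs_of_nonneg (by positivity)] at h2
    have h3 : h ^ β * (1 - 1 / (1 + h * l)) ^ (-β) = (l / (1 + h * l)) ^ (-β) := by
      have e1 : 1 - 1 / (1 + h * l) = h * (l / (1 + h * l)) := by field_simp; ring
      rw [e1, Real.mul_rpow hh.le (by positivity), ← mul_assoc, ← Real.rpow_add hh]
      simp
    rw [h3] at h2
    refine h2.congr hc fun x hx => ?_
    have hp : 0 < 1 + h * (l + τ * x) := by positivity
    have e1 : 1 - 1 / ((1 + h * l) + (h * τ) * x) = h * ((l + τ * x) / (1 + h * (l + τ * x))) := by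
      have e2 : (1 + h * l) + (h * τ) * x = 1 + h * (l + τ * x) := by ring
      rw [e2]
      field_simp
      ring
    rw [e1, Real.mul_rpow hh.le (by positivity), ← mul_assoc, ← Real.rpow_add hh]
    simp
  have hlim2 : MB b c q (fun x => (l + τ * x) ^ (-β)) (l ^ (-β)) := by
    have hcont : ∀ y : ℝ, 0 < y → Tendsto (fun h : ℝ => (y / (1 + h * y)) ^ (-β)) (𝓝[>] 0)
        (𝓝 (y ^ (-β))) := by
      intro y hy
      have h1 : ContinuousAt (fun h : ℝ => (y / (1 + h * y)) ^ (-β)) 0 := by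
        apply ContinuousAt.rpow_const
        · apply ContinuousAt.div continuousAt_const (by fun_prop)
          simp
        · left
          simp [hy.ne']
      have h2 := h1.tendsto
      simp only [zero_mul, add_zero, div_one] at h2
      exact h2.mono_left nhdsWithin_le_nhds
    have : ∀ n : ℕ, MB b c q (fun x => ((l + τ * x) / (1 + (1 / ((n:ℝ) + 1)) * (l + τ * x))) ^ (-β))
      ((l / (1 + (1 / ((n:ℝ) + 1)) * l)) ^ (-β)) := fun n => key _ (by positivity)
    have ht : Tendsto (fun n : ℕ => (1 / ((n:ℝ) + 1))) atTop (𝓝[>] 0) := by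
      rw [tendsto_nhdsWithin_iff]
      exact ⟨tendsto_one_div_add_atTop_nhds_zero_nat, Eventually.of_forall fun n => by
        simp only [Set.mem_Ioi]; positivity⟩
    exact MB.limit hc this ((hcont l hl0).comp ht) fun x hx =>
      ((hcont (l + τ * x) (by positivity)).comp ht)
  exact hlim2.mono (Real.rpow_le_one_of_one_le_of_nonpos hl (by linarith))

/-- fractional powers of `1 - ρ` -/
theorem MB.one_sub_rpow (hc : ∀ i, 0 ≤ c i) {ρ : ℝ → ℝ} {θ : ℝ} (hθ0 : 0 ≤ θ) (hθ1 : θ ≤ 1)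
    (hρ : MB b c q ρ 1) (hρ0 : ∀ x, 0 ≤ x → 0 ≤ ρ x) (hρ1 : ∀ x, 0 ≤ x → ρ x < 1) :
    MB b c q (fun x => (1 - ρ x) ^ θ) 2 := by
  obtain ⟨cf, c0, cpos, canti, hsum⟩ := exists_coeff (1 - θ) (by linarith) (by linarith)
  have hpow : ∀ n : ℕ, MB b c q (fun x => ρ x ^ n) 1 := by
    intro n
    simpa using MB.pow zero_le_one hρ n
  have key : ∀ n : ℕ, MB b c q
      (fun x => (1 - ρ x) * ∑ i ∈ Finset.range (n + 1), cf i * ρ x ^ i + cf n * ρ x ^ (n + 1))
      (2 - cf n) := by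
    intro n
    induction n with
    | zero =>
      refine (MB.one (b := b) (c := c) (q := q)).congr hc ?_ |>.mono (by rw [c0]; norm_num)
      intro x _
      simp [c0]
    | succ n ih =>
      have h1 := MB.sub ih (MB.smul (cf n - cf (n + 1)) (hpow (n + 1)))
      rw [abs_of_nonneg (by linarith [canti n])] at h1
      refine (h1.congr hc ?_).mono (by linarith)
      intro x _
      rw [Finset.sum_range_succ _ (n + 1)]
      ring
  have hb : ∀ n, cf n ≤ 1 := by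
    intro n
    induction n with
    | zero => exact c0.le
    | succ n ih => exact (canti n).trans ih
  refine MB.limit hc (l := atTop) (fun n => (key n).mono (by linarith [cpos n] : 2 - cf n ≤ 2))
    tendsto_const_nhds fun x hx => ?_
  have h1 := hρ0 x hx
  have h2 := hρ1 x hx
  have h3 : Tendsto (fun n : ℕ => cf n * ρ x ^ (n + 1)) atTop (𝓝 0) := by
    have h4 : Tendsto (fun n : ℕ => ρ x ^ (n + 1)) atTop (𝓝 0) :=
      (tendsto_pow_atTop_nhds_zero_of_lt_one h1 h2).comp (tendsto_add_atTop_nat 1)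
    refine squeeze_zero (fun n => mul_nonneg (cpos n) (by positivity)) (fun n => ?_) h4
    have : 0 ≤ ρ x ^ (n + 1) := by positivity
    nlinarith [hb n]
  have h5 : Tendsto (fun n : ℕ => ∑ i ∈ Finset.range (n + 1), cf i * ρ x ^ i) atTop
      (𝓝 ((1 - ρ x) ^ (-(1 - θ)))) :=
    ((hsum _ h1 h2).tendsto_sum_nat).comp (tendsto_add_atTop_nat 1)
  have h6 := (h5.const_mul (1 - ρ x)).add h3
  have h7 : (1 - ρ x) * (1 - ρ x) ^ (-(1 - θ)) + 0 = (1 - ρ x) ^ θ := by
    have h8 : 0 < 1 - ρ x := by linarith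
    nth_rewrite 1 [← Real.rpow_one (1 - ρ x)]
    rw [← Real.rpow_add h8, add_zero]
    congr 1
    ring
  rw [h7] at h6
  exact h6

/-- the resolvent symbol -/
noncomputable def rs (t x : ℝ) : ℝ := 1 / (1 + t * (1 + x))

theorem rs_pos {t x : ℝ} (ht : 0 ≤ t) (hx : 0 ≤ x) : 0 < rs t x := by
  unfold rs; positivity

theorem rs_le_one {t x : ℝ} (ht : 0 ≤ t) (hx : 0 ≤ x) : rs t x ≤ 1 := by
  unfold rs
  rw [div_le_one (by positivity)]
  nlinarith [mul_nonneg ht hx]

theorem rs_lt_one {t x : ℝ} (ht : 0 < t) (hx : 0 ≤ x) : rs t x < 1 := by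
  unfold rs
  rw [div_lt_one (by positivity)]
  nlinarith [mul_nonneg ht.le hx]

theorem one_sub_rs {t x : ℝ} (ht : 0 ≤ t) (hx : 0 ≤ x) : 1 - rs t x = t * (1 + x) * rs t x := by
  unfold rs
  have : 0 < 1 + t * (1 + x) := by positivity
  field_simp
  ring

theorem MB.rs (hc : ∀ i, 0 ≤ c i) (hq : Acc b c q) {t : ℝ} (ht : 0 ≤ t) :
    MB b c q (rs t) 1 := by
  have h := MB.resolvent hc hq (l := 1 + t) (τ := t) (by positivity) ht
  refine (h.congr hc fun x hx => ?_).mono ?_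
  · unfold SobAvg.rs; congr 1; ring
  · rw [div_le_one (by positivity)]; linarith

theorem MB.rs_pow (hc : ∀ i, 0 ≤ c i) (hq : Acc b c q) {t : ℝ} (ht : 0 ≤ t) (n : ℕ) :
    MB b c q (fun x => SobAvg.rs t x ^ n) 1 := by
  simpa using MB.pow zero_le_one (MB.rs hc hq ht) n

/-- `a^(-θ)` for arbitrary `θ ≥ 0` -/
theorem MB.apow_neg (hc : ∀ i, 0 ≤ c i) (hq : Acc b c q) {θ : ℝ} (hθ : 0 ≤ θ) :
    MB b c q (fun x => (1 + x) ^ (-θ)) 1 := by
  obtain ⟨n, hn⟩ := exists_nat_gt θ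
  have hn0 : (0:ℝ) < n := lt_of_le_of_lt hθ hn
  have h := MB.negpow hc hq (l := 1) (τ := 1) (β := θ / n) le_rfl zero_le_one (by positivity)
    (by rw [div_le_one hn0]; exact hn.le)
  have h2 := MB.pow zero_le_one h n
  refine (h2.congr hc fun x hx => ?_).mono (by simp)
  rw [← Real.rpow_natCast, ← Real.rpow_mul (by positivity), one_mul]
  congr 1
  field_simp

/-- `a^θ ρ_t`, `0 ≤ θ ≤ 1` -/
theorem MB.apow_rs (hc : ∀ i, 0 ≤ c i) (hq : Acc b c q) {t θ : ℝ} (ht : 0 < t) (hθ0 : 0 ≤ θ)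
    (hθ1 : θ ≤ 1) :
    MB b c q (fun x => (1 + x) ^ θ * SobAvg.rs t x) (2 * t ^ (-θ)) := by
  have h1 := MB.one_sub_rpow hc hθ0 hθ1 (MB.rs hc hq ht.le) (fun x hx => (rs_pos ht.le hx).le)
    (fun x hx => rs_lt_one ht hx)
  have h2 := MB.negpow hc hq (l := 1 + t) (τ := t) (β := 1 - θ) (by linarith) ht.le
    (by linarith) (by linarith)
  have h3 := MB.smul (t ^ (-θ)) (MB.mul (by norm_num) h1 h2)
  rw [abs_of_nonneg (by positivity)] at h3
  refine (h3.congr hc fun x hx => ?_).mono (by linarith)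
  have hr := rs_pos ht.le hx
  have e1 : 1 + t + t * x = (SobAvg.rs t x)⁻¹ := by
    unfold SobAvg.rs; rw [one_div, inv_inv]; ring
  rw [one_sub_rs ht.le hx, Real.mul_rpow (by positivity) hr.le, Real.mul_rpow ht.le (by positivity),
    e1, Real.inv_rpow hr.le, ← Real.rpow_neg hr.le, neg_neg]
  have e2 : SobAvg.rs t x ^ θ * SobAvg.rs t x ^ (1 - θ) = SobAvg.rs t x := by
    rw [← Real.rpow_add hr]; simp
  have e3 : t ^ (-θ) * t ^ θ = 1 := by
    rw [← Real.rpow_add ht]; simp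
  calc t ^ (-θ) * (t ^ θ * (1 + x) ^ θ * SobAvg.rs t x ^ θ * SobAvg.rs t x ^ (1 - θ))
      = (t ^ (-θ) * t ^ θ) * (1 + x) ^ θ * (SobAvg.rs t x ^ θ * SobAvg.rs t x ^ (1 - θ)) := by ring
    _ = _ := by rw [e2, e3, one_mul]

/-- `a^θ ρ_t^N`, `0 ≤ θ ≤ N` -/
theorem MB.apow_rs_pow (hc : ∀ i, 0 ≤ c i) (hq : Acc b c q) {t θ : ℝ} (ht : 0 < t) (hθ0 : 0 ≤ θ)
    {N : ℕ} (hN : 1 ≤ N) (hθ1 : θ ≤ N) :
    MB b c q (fun x => (1 + x) ^ θ * SobAvg.rs t x ^ N) (2 ^ N * t ^ (-θ)) := by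
  have hN0 : (0:ℝ) < N := by exact_mod_cast hN
  have h1 := MB.pow (by positivity) (MB.apow_rs hc hq ht (θ := θ / N) (by positivity)
    (by rw [div_le_one hN0]; exact hθ1)) N
  refine (h1.congr hc fun x hx => ?_).mono ?_
  · rw [mul_pow, ← Real.rpow_natCast ((1 + x) ^ (θ / N)), ← Real.rpow_mul (by positivity)]
    congr 2
    field_simp
  · rw [mul_pow, ← Real.rpow_natCast (t ^ (-(θ / N))), ← Real.rpow_mul ht.le]
    apply le_of_eq
    congr 2
    field_simp

/-- `a^(-θ) (1-ρ_t^N)^N`, `0 ≤ θ ≤ N` -/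
theorem MB.apow_neg_cut (hc : ∀ i, 0 ≤ c i) (hq : Acc b c q) {t θ : ℝ} (ht : 0 < t) (hθ0 : 0 ≤ θ)
    {N : ℕ} (hN : 1 ≤ N) (hθ1 : θ ≤ N) :
    MB b c q (fun x => (1 + x) ^ (-θ) * (1 - SobAvg.rs t x ^ N) ^ N) ((2 * N) ^ N * t ^ θ) := by
  have hN0 : (0:ℝ) < N := by exact_mod_cast hN
  have hd : θ / N ≤ 1 := by rw [div_le_one hN0]; exact hθ1
  have hd0 : 0 ≤ θ / N := by positivity
  have h1 := MB.smul t (MB.apow_rs hc hq ht (θ := 1 - θ / N) (by linarith) (by linarith))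
  have h2 := MB.sum N (f := fun i x => SobAvg.rs t x ^ i) (M := fun _ => 1)
    (fun i _ => MB.rs_pow hc hq ht.le i)
  have h3 := MB.pow (by positivity) (MB.mul (by positivity) h1 h2) N
  refine (h3.congr hc fun x hx => ?_).mono ?_
  · have hr := rs_pos ht.le hx
    have e1 : (1 - SobAvg.rs t x ^ N) = (t * (1 + x) * SobAvg.rs t x) *
        ∑ i ∈ Finset.range N, SobAvg.rs t x ^ i := by
      rw [← one_sub_rs ht.le hx]
      have := mul_neg_geom_sum (SobAvg.rs t x) N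
      linarith
    have e2 : (1 + x) ^ (-θ) = ((1 + x) ^ (-(θ / N))) ^ N := by
      rw [← Real.rpow_natCast ((1 + x) ^ (-(θ / N))), ← Real.rpow_mul (by positivity)]
      congr 1
      field_simp
    have e3 : (1 + x) ^ (1 - θ / N) = (1 + x) * (1 + x) ^ (-(θ / N)) := by
      rw [sub_eq_add_neg, Real.rpow_add (by positivity), Real.rpow_one]
    rw [e1, e2, ← mul_pow, e3]
    congr 1
    ring
  · rw [abs_of_pos ht]
    simp only [Finset.sum_const, Finset.card_range, nsmul_eq_mul, mul_one]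
    have e4 : t * (2 * t ^ (-(1 - θ / N))) * N = 2 * N * t ^ (θ / N) := by
      have : t * t ^ (-(1 - θ / N)) = t ^ (θ / N) := by
        nth_rewrite 1 [← Real.rpow_one t]
        rw [← Real.rpow_add ht]
        congr 1
        ring
      rw [← this]; ring
    rw [e4, mul_pow, ← Real.rpow_natCast (t ^ (θ / N)), ← Real.rpow_mul ht.le]
    apply le_of_eq
    congr 2
    field_simp

/-- `a^θ (1-(1-ρ_t^N)^N)`, `0 ≤ θ ≤ N` -/
theorem MB.apow_smooth (hc : ∀ i, 0 ≤ c i) (hq : Acc b c q) {t θ : ℝ} (ht : 0 < t) (hθ0 : 0 ≤ θ)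
    {N : ℕ} (hN : 1 ≤ N) (hθ1 : θ ≤ N) :
    MB b c q (fun x => (1 + x) ^ θ * (1 - (1 - SobAvg.rs t x ^ N) ^ N)) (4 ^ N * t ^ (-θ)) := by
  have h1 := MB.apow_rs_pow hc hq ht hθ0 hN hθ1
  have h2 : MB b c q (fun x => 1 - SobAvg.rs t x ^ N) 2 :=
    (MB.sub MB.one (MB.rs_pow hc hq ht.le N)).mono (by norm_num)
  have h3 := MB.sum N (f := fun i x => (1 - SobAvg.rs t x ^ N) ^ i) (M := fun i => 2 ^ i)
    (fun i _ => MB.pow (by norm_num) h2 i)
  have h4 := MB.mul (by positivity) h1 h3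
  refine (h4.congr hc fun x hx => ?_).mono ?_
  · have := mul_neg_geom_sum (1 - SobAvg.rs t x ^ N) N
    rw [← this]
    ring
  · have h5 : ∑ i ∈ Finset.range N, (2:ℝ) ^ i ≤ 2 ^ N := by
      rw [geom_sum_eq (by norm_num)]
      norm_num
    have h6 : (4:ℝ) ^ N = 2 ^ N * 2 ^ N := by rw [← mul_pow]; norm_num
    rw [h6]
    have h7 : (0:ℝ) ≤ 2 ^ N * t ^ (-θ) := by positivity
    nlinarith [mul_le_mul_of_nonneg_left h5 h7]

/-- the telescoping multiplier -/
noncomputable def tele (N : ℕ) (θ t x : ℝ) : ℝ :=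
  (t * ((1 + x) ^ (1 - θ) * rs t x)) * (((1 + rs (2 * t) x) / 2) *
    ∑ i ∈ Finset.range N, ((1 + rs (2 * t) x) / 2) ^ i)

theorem tele_spec (N : ℕ) {θ t x : ℝ} (ht : 0 < t) (hx : 0 ≤ x) :
    tele N θ t x * rs t x ^ N = (1 + x) ^ (-θ) * (rs t x ^ N - rs (2 * t) x ^ N) := by
  have hr := rs_pos ht.le hx
  have e1 : rs (2 * t) x = rs t x * ((1 + rs (2 * t) x) / 2) := by
    unfold rs
    have h1 : 0 < 1 + t * (1 + x) := by positivity
    have h2 : 0 < 1 + 2 * t * (1 + x) := by positivity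
    field_simp
    ring
  set η := (1 + rs (2 * t) x) / 2 with hη
  have e2 : rs t x ^ N - rs (2 * t) x ^ N = rs t x ^ N * (1 - η ^ N) := by
    conv_lhs => rw [e1]
    rw [mul_pow]; ring
  have e3 : 1 - η = t * (1 + x) * (rs t x * η) := by
    rw [← e1]
    have := one_sub_rs (t := 2 * t) (x := x) (by positivity) hx
    have e4 : 1 - η = (1 - rs (2 * t) x) / 2 := by rw [hη]; ring
    rw [e4, this]; ring
  have e5 : 1 - η ^ N = (1 - η) * ∑ i ∈ Finset.range N, η ^ i := (mul_neg_geom_sum η N).symm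
  have e6 : (1 + x) ^ (1 - θ) = (1 + x) * (1 + x) ^ (-θ) := by
    rw [sub_eq_add_neg, Real.rpow_add (by positivity), Real.rpow_one]
  rw [e2, e5, e3, tele, e6, ← hη]
  ring

theorem MB.tele (hc : ∀ i, 0 ≤ c i) (hq : Acc b c q) {t θ : ℝ} (ht : 0 < t) (hθ0 : 0 ≤ θ)
    (hθ1 : θ ≤ 1) (N : ℕ) :
    MB b c q (tele N θ t) (2 * N * t ^ θ) := by
  have h1 := MB.smul t (MB.apow_rs hc hq ht (θ := 1 - θ) (by linarith) (by linarith))
  have h2 : MB b c q (fun x => (1 + SobAvg.rs (2 * t) x) / 2) 1 := by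
    refine ((MB.smul (1 / 2) (MB.add MB.one (MB.rs hc hq (t := 2 * t) (by positivity)))).congr hc
      fun x _ => ?_).mono (by norm_num)
    ring
  have h3 := MB.sum N (f := fun i x => ((1 + SobAvg.rs (2 * t) x) / 2) ^ i) (M := fun i => 1 ^ i)
    (fun i _ => MB.pow zero_le_one h2 i)
  have h4 := MB.mul (by positivity) h1 (MB.mul zero_le_one h2 h3)
  refine MB.mono h4 ?_
  rw [abs_of_pos ht]
  simp only [one_pow, Finset.sum_const, Finset.card_range, nsmul_eq_mul, mul_one, one_mul]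
  have : t * t ^ (-(1 - θ)) = t ^ θ := by
    nth_rewrite 1 [← Real.rpow_one t]
    rw [← Real.rpow_add ht]
    congr 1
    ring
  apply le_of_eq
  calc t * (2 * t ^ (-(1 - θ))) * N = 2 * N * (t * t ^ (-(1 - θ))) := by ring
    _ = _ := by rw [this]

end Pool.Agent.H1.SobAvg
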