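import Pool.Agent.H1.SobAvg.Struct

namespace Pool.Agent.H1.SobAvg

open Filter Topology
open scoped ENNReal NNReal

universe v

theorem exists_inv_seminorm {K : Type*} [Group K] {W' : Type*} [AddCommGroup W'] [Module ℂ W']
    (π : K → (W' →ₗ[ℂ] W')) (h1 : ∀ v, π 1 v = v) (hmul : ∀ k k' v, π (k * k') v = π k (π k' v))
    (q : Seminorm ℂ W') (B : ℝ) (hq : ∀ k v, q (π k v) ≤ B * q v) :
    ∃ q' : Seminorm ℂ W', (∀ k v, q' (π k v) = q' v) ∧ (∀ v, q v ≤ q' v) ∧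
      ∀ v, q' v ≤ B * q v := by
  have hbdd : ∀ v, BddAbove (Set.range fun k => q (π k v)) := by
    intro v
    refine ⟨B * q v, ?_⟩
    rintro _ ⟨k, rfl⟩
    exact hq k v
  let q' : Seminorm ℂ W' := Seminorm.of (fun v => ⨆ k, q (π k v)) (by
      intro x y
      refine ciSup_le fun k => ?_
      rw [map_add]
      exact (map_add_le_add q _ _).trans
        (add_le_add (le_ciSup (hbdd x) k) (le_ciSup (hbdd y) k))) (by
      intro a x
      rw [Real.mul_iSup_of_nonneg (norm_nonneg a)]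
      congr 1
      ext k
      rw [map_smul, map_smul_eq_mul])
  have hq' : ∀ v, q' v = ⨆ k, q (π k v) := fun v => rfl
  refine ⟨q', ?_, ?_, ?_⟩
  · intro k v
    rw [hq', hq']
    have : ∀ k', q (π k' (π k v)) = q (π (Equiv.mulRight k k') v) := by
      intro k'
      rw [← hmul]; rfl
    simp only [this]
    exact (Equiv.mulRight k).surjective.iSup_comp (g := fun k' => q (π k' v))
  · intro v
    rw [hq']
    have := le_ciSup (hbdd v) 1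
    simpa [h1] using this
  · intro v
    rw [hq']
    exact ciSup_le fun k => hq k v

variable {G : Type*} [Group G] [TopologicalSpace G] {K : Subgroup G}
  {V : Type v} [AddCommGroup V] [Module ℂ V] {M : GKModule K V}
  {E : Type*} [NormedAddCommGroup E] [NormedSpace ℂ E]
  {κ : Type*} {b : Module.Basis κ ℂ V} {c : κ → ℝ}

theorem exists_weight_bound {w : G → ℝ} (hw : IsWeight w) (hK : IsCompact (K : Set G)) :
    ∃ B : ℝ, ∀ k ∈ K, w k ≤ B := by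
  refine hK.induction_on (p := fun s => ∃ B : ℝ, ∀ k ∈ s, w k ≤ B) ⟨0, by simp⟩ ?_ ?_ ?_
  · rintro s t hst ⟨B, hB⟩
    exact ⟨B, fun k hk => hB k (hst hk)⟩
  · rintro s t ⟨B, hB⟩ ⟨B', hB'⟩
    refine ⟨max B B', ?_⟩
    rintro k (hk | hk)
    · exact (hB k hk).trans (le_max_left _ _)
    · exact (hB' k hk).trans (le_max_right _ _)
  · intro g _
    obtain ⟨B, hB⟩ := hw.locBdd g
    exact ⟨_, mem_nhdsWithin_of_mem_nhds hB, B, fun k hk => hk⟩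

/-- Data and constants used throughout. -/
structure Ctx (𝓔 : Globalization M E) (w : G → ℝ) {m : ℕ} (X : Fin m → (Multiplicative ℝ →ₜ* G))
    (b : Module.Basis κ ℂ V) (c : κ → ℝ) (W : ℝ) : Prop where
  hX : ∀ i t, X i t ∈ K
  nonneg : ∀ i, 0 ≤ c i
  cas : casimir M X = fc b c (fun x => x)
  one_le : 1 ≤ W
  w_le : ∀ k ∈ K, w k ≤ W
  wt : IsWeight w
  rho_le : ∀ g x, ‖𝓔.ρ g x‖ ≤ W * w g * ‖x‖

/-- universal multiplier bound -/
def UMB (b : Module.Basis κ ℂ V) (c : κ → ℝ) (f : ℝ → ℝ) (Mf : ℝ) : Prop :=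
  0 ≤ Mf ∧ ∀ q : Seminorm ℂ V, Acc b c q → MB b c q f Mf

/-- the powers of `1 + x` -/
noncomputable def ap (θ x : ℝ) : ℝ := (1 + x) ^ θ

/-- the symbol `ρ_t^N` -/
noncomputable def rp (t : ℝ) (N : ℕ) (x : ℝ) : ℝ := rs t x ^ N

theorem UMB.mul {f g : ℝ → ℝ} {A B : ℝ} (hf : UMB b c f A) (hg : UMB b c g B) :
    UMB b c (fun x => f x * g x) (A * B) :=
  ⟨mul_nonneg hf.1 hg.1, fun q hq => MB.mul hf.1 (hf.2 q hq) (hg.2 q hq)⟩

theorem UMB.sub {f g : ℝ → ℝ} {A B : ℝ} (hf : UMB b c f A) (hg : UMB b c g B) :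
    UMB b c (fun x => f x - g x) (A + B) :=
  ⟨add_nonneg hf.1 hg.1, fun q hq => MB.sub (hf.2 q hq) (hg.2 q hq)⟩

theorem UMB.one : UMB b c (fun _ => 1) 1 := ⟨zero_le_one, fun _ _ => MB.one⟩

section
variable (hc : ∀ i, 0 ≤ c i)
include hc

theorem UMB.ap_neg {θ : ℝ} (hθ : 0 ≤ θ) : UMB b c (ap (-θ)) 1 :=
  ⟨zero_le_one, fun _ hq => MB.apow_neg hc hq hθ⟩

theorem UMB.rp {t : ℝ} (ht : 0 ≤ t) (N : ℕ) : UMB b c (rp t N) 1 :=
  ⟨zero_le_one, fun _ hq => MB.rs_pow hc hq ht N⟩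

theorem UMB.ap_rp {t θ : ℝ} (ht : 0 < t) (hθ : 0 ≤ θ) {N : ℕ} (hN : 1 ≤ N) (hθN : θ ≤ N) :
    UMB b c (fun x => ap θ x * SobAvg.rp t N x) (2 ^ N * t ^ (-θ)) :=
  ⟨by positivity, fun _ hq => MB.apow_rs_pow hc hq ht hθ hN hθN⟩

theorem UMB.ap_cut {t θ : ℝ} (ht : 0 < t) (hθ : 0 ≤ θ) {N : ℕ} (hN : 1 ≤ N) (hθN : θ ≤ N) :
    UMB b c (fun x => ap (-θ) x * (1 - SobAvg.rp t N x) ^ N) ((2 * N) ^ N * t ^ θ) :=
  ⟨by positivity, fun _ hq => MB.apow_neg_cut hc hq ht hθ hN hθN⟩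

theorem UMB.ap_smooth {t θ : ℝ} (ht : 0 < t) (hθ : 0 ≤ θ) {N : ℕ} (hN : 1 ≤ N) (hθN : θ ≤ N) :
    UMB b c (fun x => ap θ x * (1 - (1 - SobAvg.rp t N x) ^ N)) (4 ^ N * t ^ (-θ)) :=
  ⟨by positivity, fun _ hq => MB.apow_smooth hc hq ht hθ hN hθN⟩

theorem UMB.tele {t θ : ℝ} (ht : 0 < t) (hθ0 : 0 ≤ θ) (hθ1 : θ ≤ 1) (N : ℕ) :
    UMB b c (tele N θ t) (2 * N * t ^ θ) :=
  ⟨by positivity, fun _ hq => MB.tele hc hq ht hθ0 hθ1 N⟩

end

theorem ap_add {θ η x : ℝ} (hx : 0 ≤ x) : ap (θ + η) x = ap θ x * ap η x := by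
  rw [ap, Real.rpow_add (by positivity)]; rfl

theorem ap_zero (x : ℝ) : ap 0 x = 1 := by simp [ap]

theorem fc_ap_neg_ap (hc : ∀ i, 0 ≤ c i) (θ : ℝ) (v : V) :
    fc b c (ap (-θ)) (fc b c (ap θ) v) = v := by
  rw [← fc_mul, fc_congr b hc (g := fun _ => 1), fc_one]
  intro x hx
  rw [← ap_add hx, neg_add_cancel, ap_zero]

theorem fc_ap_ap_neg (hc : ∀ i, 0 ≤ c i) (θ : ℝ) (v : V) :
    fc b c (ap θ) (fc b c (ap (-θ)) v) = v := by
  rw [← fc_mul, fc_congr b hc (g := fun _ => 1), fc_one]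
  intro x hx
  rw [← ap_add hx, add_neg_cancel, ap_zero]

/-- convergence of the functional calculus -/
theorem tendsto_fc {α : Type*} {l : Filter α} {f : α → ℝ → ℝ} (q : Seminorm ℂ V)
    (h : ∀ i, Tendsto (fun a => f a (c i)) l (𝓝 1)) (v : V) :
    Tendsto (fun a => q (fc b c (f a) v - v)) l (𝓝 0) := by
  have h1 : ∀ a, q (fc b c (f a) v - v) ≤
      ∑ i ∈ (b.repr v).support, |f a (c i) - 1| * (‖b.repr v i‖ * q (b i)) := by
    intro a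
    have h2 : fc b c (f a) v - v = fc b c (fun x => f a x - 1) v := by
      rw [fc_sub b c (f a) (fun _ => 1), fc_one]
    have h3 : fc b c (fun x => f a x - 1) v =
        ∑ i ∈ (b.repr v).support, (b.repr v i) • (((f a (c i) - 1 : ℝ) : ℂ) • b i) := by
      rw [fc, Module.Basis.constr_apply, Finsupp.sum]
    rw [h2, h3]
    refine (Finset.le_sum_of_subadditive (f := q) (map_zero q).le (map_add_le_add q) _ _).trans
      (Finset.sum_le_sum fun i _ => ?_)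
    rw [map_smul_eq_mul, map_smul_eq_mul, Complex.norm_real, Real.norm_eq_abs]
    apply le_of_eq
    ring
  refine squeeze_zero (fun a => apply_nonneg q _) h1 ?_
  have h4 : Tendsto (fun a => ∑ i ∈ (b.repr v).support, |f a (c i) - 1| * (‖b.repr v i‖ * q (b i)))
      l (𝓝 (∑ i ∈ (b.repr v).support, |(1:ℝ) - 1| * (‖b.repr v i‖ * q (b i)))) :=
    tendsto_finsetSum _ fun i _ => ((((h i).sub tendsto_const_nhds).abs).mul_const _)
  simpa using h4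

namespace Ctx

variable {𝓔 : Globalization M E} {w : G → ℝ} {m : ℕ} {X : Fin m → (Multiplicative ℝ →ₜ* G)}
  {W : ℝ} (H : Ctx 𝓔 w X b c W)
include H

theorem W_pos : 0 < W := by linarith [H.one_le]

theorem acc [IsTopologicalGroup G] (q : Seminorm ℂ V) (hq : ∀ k v, q (M.actK k v) = q v) :
    Acc b c q := by
  intro τ hτ u
  rw [← H.cas]
  exact 𝓔.acc X H.hX q hq hτ u

theorem fc_le [IsTopologicalGroup G] {f : ℝ → ℝ} {A : ℝ} (hf : UMB b c f A) (q : Seminorm ℂ V)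
    {B : ℝ} (hq : ∀ k v, q (M.actK k v) ≤ B * q v) (v : V) : q (fc b c f v) ≤ A * B * q v := by
  obtain ⟨q', h1, h2, h3⟩ := exists_inv_seminorm (fun k => M.actK k) (by simp) (by simp) q B hq
  calc q (fc b c f v) ≤ q' (fc b c f v) := h2 _
    _ ≤ A * q' v := hf.2 q' (H.acc q' h1) v
    _ ≤ A * (B * q v) := mul_le_mul_of_nonneg_left (h3 v) hf.1
    _ = _ := by ring

theorem rho_K_le (k : K) (x : E) : ‖𝓔.ρ (k : G) x‖ ≤ W ^ 2 * ‖x‖ := by
  have h1 := H.rho_le k x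
  have h2 := H.w_le k k.2
  have h3 := H.W_pos
  calc ‖𝓔.ρ (k : G) x‖ ≤ W * w k * ‖x‖ := h1
    _ ≤ W * W * ‖x‖ := by gcongr
    _ = _ := by ring

theorem norm_fc_le [IsTopologicalGroup G] {f : ℝ → ℝ} {A : ℝ} (hf : UMB b c f A) (v : V) :
    ‖𝓔.ι (fc b c f v)‖ ≤ A * W ^ 2 * ‖𝓔.ι v‖ := by
  have := H.fc_le hf ((normSeminorm ℂ E).comp 𝓔.ι) (B := W ^ 2) (fun k v => by
    simp only [Seminorm.comp_apply, coe_normSeminorm, 𝓔.map_actK]
    exact H.rho_K_le k _) v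
  simpa using this

end Ctx

variable [CompleteSpace E]

/-- the bounded operator `f(C)` on `E` -/
noncomputable def Top (𝓔 : Globalization M E) (b : Module.Basis κ ℂ V) (c : κ → ℝ) (f : ℝ → ℝ) :
    E →L[ℂ] E := (𝓔.ι ∘ₗ fc b c f).extendOfNorm 𝓔.ι

namespace Ctx

variable {𝓔 : Globalization M E} {w : G → ℝ} {m : ℕ} {X : Fin m → (Multiplicative ℝ →ₜ* G)}
  {W : ℝ} [IsTopologicalGroup G] (H : Ctx 𝓔 w X b c W)
include H

theorem Top_ι {f : ℝ → ℝ} {A : ℝ} (hf : UMB b c f A) (v : V) :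
    Top 𝓔 b c f (𝓔.ι v) = 𝓔.ι (fc b c f v) :=
  LinearMap.extendOfNorm_eq 𝓔.denseRange_ι ⟨_, H.norm_fc_le hf⟩ v

theorem Top_le {f : ℝ → ℝ} {A : ℝ} (hf : UMB b c f A) (x : E) :
    ‖Top 𝓔 b c f x‖ ≤ A * W ^ 2 * ‖x‖ :=
  LinearMap.norm_extendOfNorm_apply_le 𝓔.denseRange_ι _ (H.norm_fc_le hf) x

theorem Top_mul {f g h : ℝ → ℝ} {A B A' : ℝ} (hf : UMB b c f A) (hg : UMB b c g B)
    (hh : UMB b c h A') (hfg : ∀ x, 0 ≤ x → h x = f x * g x) (x : E) :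
    Top 𝓔 b c h x = Top 𝓔 b c f (Top 𝓔 b c g x) := by
  have : (Top 𝓔 b c h : E → E) = fun x => Top 𝓔 b c f (Top 𝓔 b c g x) := by
    refine 𝓔.denseRange_ι.equalizer (Top 𝓔 b c h).continuous (by fun_prop) ?_
    ext v
    simp only [Function.comp_apply]
    rw [H.Top_ι hg, H.Top_ι hf, H.Top_ι hh, ← fc_mul, fc_congr b H.nonneg hfg]
  exact congr_fun this x

theorem Top_comm {f g : ℝ → ℝ} {A B : ℝ} (hf : UMB b c f A) (hg : UMB b c g B) (x : E) :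
    Top 𝓔 b c f (Top 𝓔 b c g x) = Top 𝓔 b c g (Top 𝓔 b c f x) := by
  rw [← H.Top_mul hf hg (hf.mul hg) (fun _ _ => rfl),
    H.Top_mul hg hf (hf.mul hg) (fun x _ => mul_comm _ _)]

theorem Top_sub {f g h : ℝ → ℝ} {A B A' : ℝ} (hf : UMB b c f A) (hg : UMB b c g B)
    (hh : UMB b c h A') (hfg : ∀ x, 0 ≤ x → h x = f x - g x) (x : E) :
    Top 𝓔 b c h x = Top 𝓔 b c f x - Top 𝓔 b c g x := by
  have : (Top 𝓔 b c h : E → E) = fun x => Top 𝓔 b c f x - Top 𝓔 b c g x := by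
    refine 𝓔.denseRange_ι.equalizer (Top 𝓔 b c h).continuous (by fun_prop) ?_
    ext v
    simp only [Function.comp_apply]
    rw [H.Top_ι hg, H.Top_ι hf, H.Top_ι hh, ← map_sub, ← fc_sub, fc_congr b H.nonneg hfg]
  exact congr_fun this x

theorem Top_one (x : E) : Top 𝓔 b c (fun _ => 1) x = x := by
  have : (Top 𝓔 b c (fun _ => 1) : E → E) = id := by
    refine 𝓔.denseRange_ι.equalizer (Top 𝓔 b c _).continuous continuous_id ?_
    ext v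
    simp only [Function.comp_apply, id]
    rw [H.Top_ι UMB.one, fc_one]
  exact congr_fun this x

theorem tendsto_Top {α : Type*} {l : Filter α} {f : α → ℝ → ℝ} {A : ℝ} (hf : ∀ a, UMB b c (f a) A)
    (h : ∀ i, Tendsto (fun a => f a (c i)) l (𝓝 1)) (y : E) :
    Tendsto (fun a => Top 𝓔 b c (f a) y) l (𝓝 y) := by
  rcases l.eq_or_neBot with rfl | hl
  · exact tendsto_bot
  rw [Metric.tendsto_nhds]
  intro ε hε
  have hA : 0 < A * W ^ 2 + 2 := by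
    obtain ⟨a⟩ := l.nonempty_of_neBot
    have := (hf a).1
    have := H.W_pos
    positivity
  obtain ⟨_, ⟨u, rfl⟩, hu⟩ := Metric.mem_closure_iff.1 (𝓔.denseRange_ι y) (ε / (A * W ^ 2 + 2))
    (by positivity)
  have h1 := tendsto_fc (b := b) (c := c) ((normSeminorm ℂ E).comp 𝓔.ι) h u
  have h2 := h1.eventually (gt_mem_nhds (show (0:ℝ) < ε / (A * W ^ 2 + 2) by positivity))
  filter_upwards [h2] with a ha
  rw [dist_eq_norm] at hu ⊢
  simp only [Seminorm.comp_apply, coe_normSeminorm, map_sub] at ha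
  have e1 : Top 𝓔 b c (f a) y - y = Top 𝓔 b c (f a) (y - 𝓔.ι u) +
      (𝓔.ι (fc b c (f a) u) - 𝓔.ι u) + (𝓔.ι u - y) := by
    rw [map_sub, H.Top_ι (hf a)]; abel
  have e2 : ‖𝓔.ι u - y‖ < ε / (A * W ^ 2 + 2) := by rwa [norm_sub_rev]
  have e3 := H.Top_le (hf a) (y - 𝓔.ι u)
  have e4 : A * W ^ 2 * ‖y - 𝓔.ι u‖ ≤ A * W ^ 2 * (ε / (A * W ^ 2 + 2)) := by
    have := (hf a).1
    gcongr
  calc ‖Top 𝓔 b c (f a) y - y‖ ≤ ‖Top 𝓔 b c (f a) (y - 𝓔.ι u)‖ +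
      ‖𝓔.ι (fc b c (f a) u) - 𝓔.ι u‖ + ‖𝓔.ι u - y‖ := by rw [e1]; exact norm_add₃_le
    _ < A * W ^ 2 * (ε / (A * W ^ 2 + 2)) + ε / (A * W ^ 2 + 2) + ε / (A * W ^ 2 + 2) := by
      linarith
    _ = ε := by field_simp; ring

end Ctx

end Pool.Agent.H1.SobAvg
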