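import Mathlib

namespace Pool.Agent.H1.SobAvg

open Filter Topology Asymptotics

theorem hasFPowerSeriesAt_of_hasSum {F : Type*} [NormedAddCommGroup F] [NormedSpace ℝ F]
    {f : ℝ → F} {a : ℕ → F} {t₀ : ℝ}
    (h : ∀ᶠ t in 𝓝 (0:ℝ), HasSum (fun n => t ^ n • a n) (f (t₀ + t))) :
    HasFPowerSeriesAt f (fun n => ContinuousMultilinearMap.mkPiRing ℝ (Fin n) (a n)) t₀ := by
  obtain ⟨ε, hε, hball⟩ := Metric.eventually_nhds_iff.1 h
  set r : NNReal := ⟨ε / 2, by positivity⟩ with hr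
  have hr' : (r : ℝ) = ε / 2 := rfl
  refine ⟨r, ?_, ?_, ?_⟩
  · have h1 : Summable (fun n => (ε / 2) ^ n • a n) :=
      (hball (y := ε / 2) (by rw [Real.dist_eq, sub_zero, abs_of_pos (by positivity)]; linarith)).summable
    have h2 := h1.tendsto_atTop_zero.norm
    refine FormalMultilinearSeries.le_radius_of_tendsto (l := 0) _ ?_
    simp only [ContinuousMultilinearMap.norm_mkPiRing]
    simp only [norm_zero, norm_smul, norm_pow, Real.norm_eq_abs] at h2
    rw [abs_of_pos (by positivity)] at h2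
    refine h2.congr fun n => ?_
    rw [hr', mul_comm]
  · rw [ENNReal.coe_pos, ← NNReal.coe_pos, hr']; positivity
  · intro y hy
    have hy' : dist y 0 < ε := by
      rw [Metric.mem_eball, edist_nndist, ENNReal.coe_lt_coe, ← NNReal.coe_lt_coe, coe_nndist,
        hr'] at hy
      linarith
    have := hball hy'
    simpa using this

theorem second_diff {F : Type*} [NormedAddCommGroup F] [NormedSpace ℝ F]
    {f : ℝ → F} {a : ℕ → F}
    (h : ∀ᶠ t in 𝓝 (0:ℝ), HasSum (fun n => t ^ n • a n) (f t)) :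
    Tendsto (fun t : ℝ => (t ^ 2)⁻¹ • ((2:ℝ) • a 0 - f t - f (-t))) (𝓝[≠] 0)
      (𝓝 (-((2:ℝ) • a 2))) := by
  have h0 : ∀ᶠ t in 𝓝 (0:ℝ), HasSum (fun n => t ^ n • a n) (f (0 + t)) := by simpa using h
  have hp := hasFPowerSeriesAt_of_hasSum h0
  have hO := hp.isBigO_sub_partialSum_pow 3
  set g : ℝ → F := fun y => f (0 + y) - FormalMultilinearSeries.partialSum
    (fun n => ContinuousMultilinearMap.mkPiRing ℝ (Fin n) (a n)) 3 y with hg
  have hgy : ∀ y, f y = a 0 + y • a 1 + y ^ 2 • a 2 + g y := by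
    intro y
    simp only [hg, FormalMultilinearSeries.partialSum, Finset.sum_range_succ, Finset.sum_range_zero,
      ContinuousMultilinearMap.mkPiRing_apply, Finset.prod_const, Finset.card_univ, Fintype.card_fin,
      pow_zero, one_smul, pow_one, zero_add]
    abel
  obtain ⟨C, hC⟩ := hO.bound
  have hC' : ∀ᶠ t in 𝓝[≠] (0:ℝ), ‖g t‖ ≤ C * |t| ^ 3 := by
    refine (hC.filter_mono nhdsWithin_le_nhds).mono fun t ht => ?_
    simpa using ht
  have hC'' : ∀ᶠ t in 𝓝[≠] (0:ℝ), ‖g (-t)‖ ≤ C * |t| ^ 3 := by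
    have h1 : Tendsto (fun t : ℝ => -t) (𝓝[≠] 0) (𝓝 0) := by
      have : Tendsto (fun t : ℝ => -t) (𝓝 0) (𝓝 (-0)) := continuous_neg.tendsto 0
      rw [neg_zero] at this
      exact this.mono_left nhdsWithin_le_nhds
    refine (h1.eventually hC).mono fun t ht => ?_
    simpa using ht
  have hlim : Tendsto (fun t : ℝ => (t ^ 2)⁻¹ • (g t + g (-t))) (𝓝[≠] 0) (𝓝 0) := by
    refine squeeze_zero_norm' (a := fun t => 2 * C * |t|) ?_ ?_
    · filter_upwards [hC', hC'', self_mem_nhdsWithin] with t h1 h2 h3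
      have h3' : t ≠ 0 := h3
      have h4 : 0 < |t| := abs_pos.2 h3'
      rw [norm_smul, norm_inv, norm_pow, Real.norm_eq_abs, inv_mul_le_iff₀ (by positivity)]
      calc ‖g t + g (-t)‖ ≤ ‖g t‖ + ‖g (-t)‖ := norm_add_le _ _
        _ ≤ C * |t| ^ 3 + C * |t| ^ 3 := add_le_add h1 h2
        _ = |t| ^ 2 * (2 * C * |t|) := by ring
    · have : Tendsto (fun t : ℝ => 2 * C * |t|) (𝓝 0) (𝓝 (2 * C * |(0:ℝ)|)) :=
        (Continuous.tendsto (by fun_prop) 0)
      rw [abs_zero, mul_zero] at this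
      exact this.mono_left nhdsWithin_le_nhds
  have h5 : Tendsto (fun t : ℝ => -((2:ℝ) • a 2) - (t ^ 2)⁻¹ • (g t + g (-t))) (𝓝[≠] 0)
      (𝓝 (-((2:ℝ) • a 2) - 0)) := tendsto_const_nhds.sub hlim
  rw [sub_zero] at h5
  refine h5.congr' ?_
  filter_upwards [self_mem_nhdsWithin] with t ht
  have ht' : t ≠ 0 := ht
  have h6 : (t ^ 2)⁻¹ • (t ^ 2 • a 2) = a 2 := by
    rw [smul_smul, inv_mul_cancel₀ (by positivity), one_smul]
  have h7 : (2:ℝ) • a 0 - f t - f (-t) = -(2:ℝ) • (t ^ 2 • a 2) - (g t + g (-t)) := by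
    rw [hgy t, hgy (-t), neg_sq]
    module
  rw [h7, smul_sub, smul_comm, h6]
  simp

end Pool.Agent.H1.SobAvg
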