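import Pool.Agent.H1.SobAvg.Avg

namespace Pool.Agent.H1.SobAvg

open Filter Topology
open scoped ENNReal NNReal

universe v

variable {G : Type*} [Group G] [TopologicalSpace G] [IsTopologicalGroup G] {K : Subgroup G}
  {V : Type v} [AddCommGroup V] [Module ℂ V] {M : GKModule K V}
  {E : Type*} [NormedAddCommGroup E] [NormedSpace ℂ E] [CompleteSpace E]
  {κ : Type*} {b : Module.Basis κ ℂ V} {c : κ → ℝ}

omit [IsTopologicalGroup G] in
theorem D_eq {m : ℕ} {X : Fin m → (Multiplicative ℝ →ₜ* G)}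
    (hcas : casimir M X = fc b c (fun x => x)) {D : ℝ → V →ₗ[ℂ] V}
    (hD : IsSobolevFamily (casimir M X) D) (s : ℝ) : D s = fc b c (ap (s / 2)) := by
  refine b.ext fun i => ?_
  rw [fc_basis]
  refine hD s (c i) (b i) ?_
  rw [hcas, fc_basis]

theorem tendsto_rp (N : ℕ) (x : ℝ) {α : Type*} {l : Filter α} {t : α → ℝ}
    (ht : Tendsto t l (𝓝 0)) : Tendsto (fun a => rp (t a) N x) l (𝓝 1) := by
  have h : Tendsto (fun a => (1 / (1 + t a * (1 + x))) ^ N) l (𝓝 ((1 / (1 + 0 * (1 + x))) ^ N)) :=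
    ((tendsto_const_nhds.div (tendsto_const_nhds.add (ht.mul_const _)) (by simp))).pow N
  simp only [zero_mul, add_zero, div_one, one_pow] at h
  exact h

namespace Ctx

variable {𝓔 : Globalization M E} {w : G → ℝ} {m : ℕ} {X : Fin m → (Multiplicative ℝ →ₜ* G)}
  {W : ℝ} (H : Ctx 𝓔 w X b c W)
include H

theorem Top_rp_eq {t θ : ℝ} (ht : 0 < t) (hθ : 0 ≤ θ) {N : ℕ} (hN : 1 ≤ N) (hθN : θ ≤ N) (x : E) :
    Top 𝓔 b c (rp t N) x = Top 𝓔 b c (ap (-θ)) (Top 𝓔 b c (fun x => ap θ x * rp t N x) x) := by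
  refine H.Top_mul (UMB.ap_neg H.nonneg hθ) (UMB.ap_rp H.nonneg ht hθ hN hθN)
    (UMB.rp H.nonneg ht.le N) (fun x hx => ?_) x
  rw [← mul_assoc, ← ap_add hx, neg_add_cancel, ap_zero, one_mul]

theorem Top_rp_eq' {t θ : ℝ} (ht : 0 < t) (hθ : 0 ≤ θ) {N : ℕ} (hN : 1 ≤ N) (hθN : θ ≤ N) (x : E) :
    Top 𝓔 b c (fun x => ap θ x * rp t N x) (Top 𝓔 b c (ap (-θ)) x) = Top 𝓔 b c (rp t N) x := by
  rw [H.Top_comm (UMB.ap_rp H.nonneg ht hθ hN hθN) (UMB.ap_neg H.nonneg hθ),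
    ← H.Top_rp_eq ht hθ hN hθN]

theorem B_inj {θ : ℝ} (hθ : 0 ≤ θ) : Function.Injective (Top 𝓔 b c (ap (-θ))) := by
  rw [injective_iff_map_eq_zero]
  intro y hy
  obtain ⟨N, hN⟩ := exists_nat_ge (max 1 θ)
  have hN1 : 1 ≤ N := by exact_mod_cast (le_max_left _ _).trans hN
  have hNθ : θ ≤ N := (le_max_right _ _).trans hN
  have h1 : Tendsto (fun n : ℕ => Top 𝓔 b c (rp (1 / ((n:ℝ) + 1)) N) y) atTop (𝓝 y) :=
    H.tendsto_Top (fun n => UMB.rp H.nonneg (by positivity) N)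
      (fun i => tendsto_rp N (c i) tendsto_one_div_add_atTop_nhds_zero_nat) y
  have h2 : ∀ n : ℕ, Top 𝓔 b c (rp (1 / ((n:ℝ) + 1)) N) y = 0 := by
    intro n
    rw [← H.Top_rp_eq' (by positivity) hθ hN1 hNθ, hy, map_zero]
  simp only [h2] at h1
  exact tendsto_nhds_unique h1 tendsto_const_nhds

section
variable {D : ℝ → V →ₗ[ℂ] V} (hD : IsSobolevFamily (casimir M X) D)
include hD

theorem mem_closure_iff {s : ℝ} (hs : 0 ≤ s) (x y : E) :
    (x, y) ∈ closure (Set.range fun v : V => (𝓔.ι v, 𝓔.ι (D s v))) ↔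
      x = Top 𝓔 b c (ap (-(s / 2))) y := by
  have hU := UMB.ap_neg (b := b) H.nonneg (θ := s / 2) (by positivity)
  have hDs := D_eq H.cas hD s
  constructor
  · intro h
    have hcl : IsClosed {p : E × E | p.1 = Top 𝓔 b c (ap (-(s / 2))) p.2} :=
      isClosed_eq (by fun_prop) (by fun_prop)
    refine (hcl.closure_subset_iff.2 ?_ h : (x, y) ∈ {p : E × E | p.1 = _})
    rintro _ ⟨v, rfl⟩
    show 𝓔.ι v = _
    rw [H.Top_ι hU, hDs, fc_ap_neg_ap H.nonneg]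
  · rintro rfl
    have hc : Continuous fun y : E => (Top 𝓔 b c (ap (-(s / 2))) y, y) := by fun_prop
    have h1 : y ∈ closure (Set.range 𝓔.ι) := 𝓔.denseRange_ι y
    refine closure_mono ?_ (image_closure_subset_closure_image hc ⟨y, h1, rfl⟩)
    rintro _ ⟨_, ⟨u, rfl⟩, rfl⟩
    refine ⟨fc b c (ap (-(s / 2))) u, ?_⟩
    simp only
    rw [H.Top_ι hU, hDs, fc_ap_ap_neg H.nonneg]

theorem sobolev_B {s : ℝ} (hs : 0 ≤ s) (y : E) :
    𝓔.sobolev D s (Top 𝓔 b c (ap (-(s / 2))) y) = ‖y‖ₑ := by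
  unfold Globalization.sobolev
  simp only [H.mem_closure_iff hD hs]
  apply le_antisymm
  · exact (iInf_le _ y).trans (iInf_le _ rfl)
  · refine le_iInf₂ fun y' hy' => ?_
    rw [H.B_inj (by positivity) hy']

theorem exists_of_sobolev_lt_top {s : ℝ} (hs : 0 ≤ s) {x : E} (hx : 𝓔.sobolev D s x < ⊤) :
    ∃ y, x = Top 𝓔 b c (ap (-(s / 2))) y ∧ 𝓔.sobolev D s x = ‖y‖ₑ := by
  have h1 : ∃ y, x = Top 𝓔 b c (ap (-(s / 2))) y := by
    by_contra hcon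
    push Not at hcon
    unfold Globalization.sobolev at hx
    simp only [H.mem_closure_iff hD hs] at hx
    simp [hcon] at hx
  obtain ⟨y, rfl⟩ := h1
  exact ⟨y, rfl, H.sobolev_B hD hs y⟩

theorem sobolev_ι {s : ℝ} (hs : 0 ≤ s) (v : V) : 𝓔.sobolev D s (𝓔.ι v) = ‖𝓔.ι (D s v)‖ₑ := by
  have h1 : 𝓔.ι v = Top 𝓔 b c (ap (-(s / 2))) (𝓔.ι (D s v)) := by
    rw [H.Top_ι (UMB.ap_neg H.nonneg (by positivity)), D_eq H.cas hD s, fc_ap_neg_ap H.nonneg]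
  rw [h1, H.sobolev_B hD hs]

end

/-- star1 -/
theorem rho_eq_Top (g : G) (z : V) :
    𝓔.ρ g (𝓔.ι z) = Top 𝓔 b c (rp 1 1)
      (𝓔.ρ g (𝓔.ι ((2:ℂ) • z + casimir M (fun i => conjX g (X i)) z))) := by
  set x := 𝓔.ρ g (𝓔.ι z) with hx
  set bb := 𝓔.ρ g (𝓔.ι ((2:ℂ) • z + casimir M (fun i => conjX g (X i)) z)) with hbb
  have hU := UMB.rp (b := b) H.nonneg (t := 1) (by norm_num) 1
  obtain ⟨q, hq1, hq2, hq3⟩ := exists_inv_seminorm (K := K) (W' := E)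
    (fun k => (𝓔.ρ (k : G)).toLinearMap) (by simp) (by
      intro k k' v
      simp only [Subgroup.coe_mul, map_mul]
      rfl) (normSeminorm ℂ E) (W ^ 2) (fun k v => H.rho_K_le k v)
  simp only [coe_normSeminorm, ContinuousLinearMap.coe_coe] at hq1 hq2 hq3
  have key1 : ∀ u : V, ‖x - 𝓔.ι u‖ ≤ (1 / 2) * (W ^ 2 * ‖bb - 𝓔.ι ((2:ℂ) • u + casimir M X u)‖) := by
    intro u
    set y := x - 𝓔.ι u with hy
    have h1 : ∀ h : ℝ, q y ≤ q (y + (1 / 2 : ℂ) • 𝓔.cop X h y) := by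
      intro h
      have := acc_general q (fun i x => 𝓔.ρ (X i (Multiplicative.ofAdd h)) x)
        (fun i x => 𝓔.ρ (X i (Multiplicative.ofAdd (-h))) x)
        (fun i u => (hq1 ⟨_, H.hX i _⟩ u).le) (fun i u => (hq1 ⟨_, H.hX i _⟩ u).le)
        (β := 1 / 2 * (h ^ 2)⁻¹) (by positivity) y
      rw [Complex.ofReal_mul, mul_smul] at this
      simpa [Globalization.cop] using this
    have h2 : Tendsto (fun h : ℝ => y + (1 / 2 : ℂ) • 𝓔.cop X h y) (𝓝[≠] 0)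
        (𝓝 ((1 / 2 : ℂ) • (bb - 𝓔.ι ((2:ℂ) • u + casimir M X u)))) := by
      have e1 : ∀ h, 𝓔.cop X h y = 𝓔.cop X h x - 𝓔.cop X h (𝓔.ι u) := by
        intro h
        simp only [Globalization.cop, hy]
        rw [← smul_sub, ← Finset.sum_sub_distrib]
        congr 2
        ext i
        simp only [map_sub, smul_sub]
        abel
      have e2 := (𝓔.tendsto_cop X g z).sub (𝓔.tendsto_cop_one X u)
      have e3 := (e2.const_smul (1 / 2 : ℂ)).const_add y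
      have e4 : y + (1 / 2 : ℂ) • (𝓔.ρ g (𝓔.ι (casimir M (fun i => conjX g (X i)) z)) -
          𝓔.ι (casimir M X u)) = (1 / 2 : ℂ) • (bb - 𝓔.ι ((2:ℂ) • u + casimir M X u)) := by
        rw [hbb, hy, hx]
        simp only [map_add, map_smul]
        module
      rw [e4] at e3
      refine e3.congr fun h => ?_
      rw [e1]
    have h3 : Tendsto (fun h : ℝ => W ^ 2 * ‖y + (1 / 2 : ℂ) • 𝓔.cop X h y‖) (𝓝[≠] 0)
        (𝓝 (W ^ 2 * ‖(1 / 2 : ℂ) • (bb - 𝓔.ι ((2:ℂ) • u + casimir M X u))‖)) := h2.norm.const_mul _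
    have h4 := ge_of_tendsto h3 (Eventually.of_forall fun h =>
      ((hq2 y).trans (h1 h)).trans (hq3 _))
    rw [norm_smul] at h4
    refine h4.trans (le_of_eq ?_)
    norm_num
    ring
  have key2 : ∀ u : V, ‖x - Top 𝓔 b c (rp 1 1) (𝓔.ι u)‖ ≤ (1 / 2) * (W ^ 2 * ‖bb - 𝓔.ι u‖) := by
    intro u
    rw [H.Top_ι hU]
    have h1 := key1 (fc b c (rp 1 1) u)
    have h2 : (2:ℂ) • fc b c (rp 1 1) u + casimir M X (fc b c (rp 1 1) u) = u := by
      have e1 : ((2:ℝ):ℂ) • fc b c (rp 1 1) u = fc b c (fun x => 2 * rp 1 1 x) u := by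
        rw [fc_mul b c (fun _ => 2) (rp 1 1), fc_const]
      have e2 : ((2:ℝ):ℂ) = 2 := by norm_num
      rw [H.cas, ← e2, e1, ← fc_mul, ← fc_add, fc_congr b H.nonneg (g := fun _ => 1), fc_one]
      intro x hx
      simp only [rp, rs, pow_one, one_mul]
      have : 0 < 1 + (1 + x) := by positivity
      field_simp
      ring
    rwa [h2] at h1
  have key3 : ∀ y : E, ‖x - Top 𝓔 b c (rp 1 1) y‖ ≤ (1 / 2) * (W ^ 2 * ‖bb - y‖) := by
    intro y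
    refine 𝓔.denseRange_ι.induction_on (p := fun y =>
      ‖x - Top 𝓔 b c (rp 1 1) y‖ ≤ (1 / 2) * (W ^ 2 * ‖bb - y‖)) y ?_ key2
    exact isClosed_le (by fun_prop) (by fun_prop)
  have h5 := key3 bb
  simp only [sub_self, norm_zero, mul_zero, norm_le_zero_iff] at h5
  rw [sub_eq_zero] at h5
  exact h5

theorem rp_one_succ (n : ℕ) (x : E) :
    Top 𝓔 b c (rp 1 (n + 1)) x = Top 𝓔 b c (rp 1 n) (Top 𝓔 b c (rp 1 1) x) := by
  refine H.Top_mul (UMB.rp H.nonneg (by norm_num) n) (UMB.rp H.nonneg (by norm_num) 1)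
    (UMB.rp H.nonneg (by norm_num) (n + 1)) (fun x hx => ?_) x
  simp [rp, pow_succ]

theorem exists_rho_eq_Top_pow (g : G) (n : ℕ) (z : V) :
    ∃ y : E, 𝓔.ρ g (𝓔.ι z) = Top 𝓔 b c (rp 1 n) y := by
  induction n generalizing z with
  | zero =>
    refine ⟨𝓔.ρ g (𝓔.ι z), ?_⟩
    have : rp 1 0 = fun _ => 1 := by ext x; simp [rp]
    rw [this, H.Top_one]
  | succ n ih =>
    have h1 := H.rho_eq_Top g z
    obtain ⟨y, hy⟩ := ih ((2:ℂ) • z + casimir M (fun i => conjX g (X i)) z)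
    refine ⟨y, ?_⟩
    rw [h1, hy, H.Top_comm (UMB.rp H.nonneg (by norm_num) 1) (UMB.rp H.nonneg (by norm_num) n)]
    exact (H.rp_one_succ n y).symm

/-- `K`-finite vectors stay in the Sobolev spaces under `G`. -/
theorem exists_rho_eq_B (g : G) (z : V) {θ : ℝ} (hθ : 0 ≤ θ) :
    ∃ y : E, 𝓔.ρ g (𝓔.ι z) = Top 𝓔 b c (ap (-θ)) y := by
  obtain ⟨N, hN⟩ := exists_nat_ge (max 1 θ)
  have hN1 : 1 ≤ N := by exact_mod_cast (le_max_left _ _).trans hN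
  have hNθ : θ ≤ N := (le_max_right _ _).trans hN
  obtain ⟨y, hy⟩ := H.exists_rho_eq_Top_pow g N z
  exact ⟨_, hy.trans (H.Top_rp_eq (by norm_num) hθ hN1 hNθ y)⟩

end Ctx

end Pool.Agent.H1.SobAvg
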