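import Pool.Agent.H1.SobAvg.Defs
import Pool.Agent.H1.SobAvg.Series
import Pool.Agent.H1.SobAvg.Diag
import Pool.Agent.H1.SobAvg.Mult2

namespace Pool.Agent.H1.SobAvg

open Filter Topology

universe v

variable {G : Type*} [Group G] [TopologicalSpace G] {K : Subgroup G}
  {V : Type v} [AddCommGroup V] [Module ℂ V] {M : GKModule K V}
  {E : Type*} [NormedAddCommGroup E] [NormedSpace ℂ E]

/-- span of the K-orbit -/
def orb (M : GKModule K V) (v : V) : Submodule ℂ V :=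
  Submodule.span ℂ (Set.range fun k : K => M.actK k v)

theorem self_mem_orb (v : V) : v ∈ orb M v := Submodule.subset_span ⟨1, by simp⟩

theorem actK_mem_orb {v u : V} (k : K) (hu : u ∈ orb M v) : M.actK k u ∈ orb M v := by
  have : (orb M v).map (M.actK k) ≤ orb M v := by
    rw [orb, Submodule.map_span, Submodule.span_le]
    rintro _ ⟨_, ⟨k', rfl⟩, rfl⟩
    refine Submodule.subset_span ⟨k * k', ?_⟩
    simp [map_mul]
  exact this ⟨u, hu, rfl⟩

namespace Globalization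

variable (𝓔 : Globalization M E)

include 𝓔 in
theorem finite_orb (v : V) : FiniteDimensional ℂ (orb M v) := by
  have h := (𝓔.kfinite (𝓔.ι v)).1 ⟨v, rfl⟩
  have h2 : Submodule.span ℂ (Set.range fun k : K => 𝓔.ρ (k : G) (𝓔.ι v)) =
      (orb M v).map 𝓔.ι := by
    rw [orb, Submodule.map_span, ← Set.range_comp]
    congr 2
    ext k
    simp [𝓔.map_actK]
  rw [h2] at h
  exact LinearEquiv.finiteDimensional
    (Submodule.equivMapOfInjective 𝓔.ι 𝓔.injective_ι (orb M v)).symm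

theorem closed_orb (v : V) : IsClosed (((orb M v).map 𝓔.ι : Submodule ℂ E) : Set E) := by
  have := 𝓔.finite_orb v
  exact Submodule.closed_of_finiteDimensional _

theorem hasDerivAt_actg (X : Multiplicative ℝ →ₜ* G) (v : V) :
    HasDerivAt (fun t : ℝ => 𝓔.ρ (X (Multiplicative.ofAdd t)) (𝓔.ι v)) (𝓔.ι (M.actg X v)) 0 := by
  have h := 𝓔.map_actg X v
  have h1 := (hasFPowerSeriesAt_of_hasSum
    (f := fun t : ℝ => 𝓔.ρ (X (Multiplicative.ofAdd t)) (𝓔.ι v)) (t₀ := 0)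
    (a := fun n : ℕ => (n.factorial : ℝ)⁻¹ • 𝓔.ι ((M.actg X ^ n) v)) (by simpa using h)).hasDerivAt
  simpa using h1

include 𝓔 in
theorem actg_mem_orb {X : Multiplicative ℝ →ₜ* G} (hX : ∀ t, X t ∈ K) {v u : V}
    (hu : u ∈ orb M v) : M.actg X u ∈ orb M v := by
  have h1 := (𝓔.hasDerivAt_actg X u).tendsto_slope_zero
  have h2 : 𝓔.ι (M.actg X u) ∈ (((orb M v).map 𝓔.ι : Submodule ℂ E) : Set E) := by
    refine (𝓔.closed_orb v).mem_of_tendsto h1 (Eventually.of_forall fun t => ?_)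
    have h3 : 𝓔.ρ (X (Multiplicative.ofAdd (0 + t))) (𝓔.ι u) ∈ (orb M v).map 𝓔.ι := by
      refine ⟨M.actK ⟨X (Multiplicative.ofAdd (0 + t)), hX _⟩ u, actK_mem_orb _ hu, ?_⟩
      rw [𝓔.map_actK]
    have h4 : 𝓔.ρ (X (Multiplicative.ofAdd 0)) (𝓔.ι u) ∈ (orb M v).map 𝓔.ι := by
      refine ⟨M.actK ⟨X (Multiplicative.ofAdd 0), hX _⟩ u, actK_mem_orb _ hu, ?_⟩
      rw [𝓔.map_actK]
    exact Submodule.smul_of_tower_mem _ _ (Submodule.sub_mem _ h3 h4)
  obtain ⟨u', hu', he⟩ := h2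
  rwa [← 𝓔.injective_ι he]

theorem seminorm_bound (U : Submodule ℂ V) [FiniteDimensional ℂ U] (q : Seminorm ℂ U) :
    ∃ B : ℝ, 0 ≤ B ∧ ∀ u : U, q u ≤ B * ‖𝓔.ι u‖ := by
  let φ : U →ₗ[ℂ] E := 𝓔.ι ∘ₗ U.subtype
  have hφ : Function.Injective φ := 𝓔.injective_ι.comp Subtype.coe_injective
  let _ : NormedAddCommGroup U := NormedAddCommGroup.induced U E φ hφ
  let _ : NormedSpace ℂ U := NormedSpace.induced ℂ U E φ
  let bU := Module.finBasis ℂ U
  let cj : Fin (Module.finrank ℂ U) → (U →L[ℂ] ℂ) := fun j => (bU.coord j).toContinuousLinearMap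
  refine ⟨∑ j, ‖cj j‖ * q (bU j), Finset.sum_nonneg fun j _ => by positivity, fun u => ?_⟩
  have h1 : u = ∑ j, (cj j u) • (bU j) := (bU.sum_repr u).symm
  calc q u = q (∑ j, (cj j u) • (bU j)) := by rw [← h1]
    _ ≤ ∑ j, q ((cj j u) • (bU j)) :=
      Finset.le_sum_of_subadditive (f := q) (map_zero q).le (map_add_le_add q) _ _
    _ ≤ ∑ j, (‖cj j‖ * q (bU j)) * ‖𝓔.ι u‖ := by
      refine Finset.sum_le_sum fun j _ => ?_
      rw [map_smul_eq_mul]
      have h2 : ‖cj j u‖ ≤ ‖cj j‖ * ‖𝓔.ι u‖ := (cj j).le_opNorm _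
      nlinarith [apply_nonneg q (bU j), mul_le_mul_of_nonneg_right h2 (apply_nonneg q (bU j))]
    _ = _ := by rw [Finset.sum_mul]

theorem tendsto_functional (U : Submodule ℂ V) [FiniteDimensional ℂ U] (ξ : U →ₗ[ℂ] ℂ)
    {α : Type*} {l : Filter α} {f : α → U} {u : U}
    (h : Tendsto (fun a => 𝓔.ι (f a)) l (𝓝 (𝓔.ι u))) :
    Tendsto (fun a => ξ (f a)) l (𝓝 (ξ u)) := by
  obtain ⟨B, hB0, hB⟩ := 𝓔.seminorm_bound U ((normSeminorm ℂ ℂ).comp ξ)
  rw [tendsto_iff_norm_sub_tendsto_zero] at h ⊢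
  have h2 := h.const_mul B
  rw [mul_zero] at h2
  refine squeeze_zero (fun a => norm_nonneg _) (fun a => ?_) h2
  have := hB (f a - u)
  simpa using this

end Globalization

/-- conjugate one-parameter subgroup -/
def conjX [IsTopologicalGroup G] (g : G) (X : Multiplicative ℝ →ₜ* G) : Multiplicative ℝ →ₜ* G where
  toFun t := g⁻¹ * X t * g
  map_one' := by simp
  map_mul' s t := by simp [mul_assoc]
  continuous_toFun := by
    have : Continuous fun t => X t := X.continuous_toFun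
    fun_prop

theorem conjX_apply [IsTopologicalGroup G] (g : G) (X : Multiplicative ℝ →ₜ* G) (t) :
    conjX g X t = g⁻¹ * X t * g := rfl

theorem conjX_one [IsTopologicalGroup G] (X : Multiplicative ℝ →ₜ* G) : conjX 1 X = X := by
  ext t; simp [conjX_apply]

theorem acc_general {W : Type*} [AddCommGroup W] [Module ℂ W] (q : Seminorm ℂ W) {m : ℕ}
    (P Q : Fin m → W → W) (hP : ∀ i u, q (P i u) ≤ q u) (hQ : ∀ i u, q (Q i u) ≤ q u)
    {β : ℝ} (hβ : 0 ≤ β) (u : W) :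
    q u ≤ q (u + (β : ℂ) • ∑ i, ((2:ℂ) • u - P i u - Q i u)) := by
  have h1 : ((1 + 2 * m * β : ℝ) : ℂ) • u = (u + (β : ℂ) • ∑ i, ((2:ℂ) • u - P i u - Q i u)) +
      (β : ℂ) • ∑ i, (P i u + Q i u) := by
    rw [add_assoc, ← smul_add, ← Finset.sum_add_distrib]
    have : ∀ i, (2:ℂ) • u - P i u - Q i u + (P i u + Q i u) = (2:ℂ) • u := fun i => by abel
    simp only [this, Finset.sum_const, Finset.card_univ, Fintype.card_fin]
    rw [← Nat.cast_smul_eq_nsmul ℂ, smul_smul, smul_smul]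
    nth_rewrite 2 [← one_smul ℂ u]
    rw [← add_smul]
    congr 1
    push_cast
    ring
  have h2 : q (((1 + 2 * m * β : ℝ) : ℂ) • u) = (1 + 2 * m * β) * q u := by
    rw [map_smul_eq_mul, Complex.norm_real, Real.norm_eq_abs, abs_of_nonneg (by positivity)]
  have h3 : q ((β : ℂ) • ∑ i, (P i u + Q i u)) ≤ 2 * m * β * q u := by
    rw [map_smul_eq_mul, Complex.norm_real, Real.norm_eq_abs, abs_of_nonneg hβ]
    have h4 : q (∑ i, (P i u + Q i u)) ≤ ∑ i : Fin m, (q u + q u) :=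
      (Finset.le_sum_of_subadditive (f := q) (map_zero q).le (map_add_le_add q) _ _).trans
        (Finset.sum_le_sum fun i _ => (map_add_le_add q _ _).trans (add_le_add (hP i u) (hQ i u)))
    simp only [Finset.sum_const, Finset.card_univ, Fintype.card_fin, nsmul_eq_mul] at h4
    calc β * q (∑ i, (P i u + Q i u)) ≤ β * (m * (q u + q u)) := mul_le_mul_of_nonneg_left h4 hβ
      _ = _ := by ring
  have h5 := map_add_le_add q (u + (β : ℂ) • ∑ i, ((2:ℂ) • u - P i u - Q i u))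
    ((β : ℂ) • ∑ i, (P i u + Q i u))
  rw [← h1, h2] at h5
  linarith

namespace Globalization

variable (𝓔 : Globalization M E) {m : ℕ} (X : Fin m → (Multiplicative ℝ →ₜ* G))

/-- difference operator approximating the Casimir operator -/
noncomputable def cop (h : ℝ) (x : E) : E :=
  (((h ^ 2)⁻¹ : ℝ) : ℂ) • ∑ i, ((2:ℂ) • x - 𝓔.ρ (X i (Multiplicative.ofAdd h)) x -
    𝓔.ρ (X i (Multiplicative.ofAdd (-h))) x)

theorem tendsto_cop [IsTopologicalGroup G] (g : G) (z : V) :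
    Tendsto (fun h => 𝓔.cop X h (𝓔.ρ g (𝓔.ι z))) (𝓝[≠] 0)
      (𝓝 (𝓔.ρ g (𝓔.ι (casimir M (fun i => conjX g (X i)) z)))) := by
  have h1 : ∀ i, Tendsto (fun t : ℝ => (((t ^ 2)⁻¹ : ℝ) : ℂ) • ((2:ℂ) • (𝓔.ρ g (𝓔.ι z)) -
      𝓔.ρ (X i (Multiplicative.ofAdd t)) (𝓔.ρ g (𝓔.ι z)) -
      𝓔.ρ (X i (Multiplicative.ofAdd (-t))) (𝓔.ρ g (𝓔.ι z)))) (𝓝[≠] 0)
      (𝓝 (𝓔.ρ g (𝓔.ι (-((M.actg (conjX g (X i))) ^ 2) z)))) := by
    intro i
    have h2 := second_diff (f := fun t : ℝ => 𝓔.ρ (conjX g (X i) (Multiplicative.ofAdd t)) (𝓔.ι z))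
      (𝓔.map_actg (conjX g (X i)) z)
    have h3 := ((𝓔.ρ g).continuous.tendsto _).comp h2
    have h4 : 𝓔.ρ g (𝓔.ι (-((M.actg (conjX g (X i))) ^ 2) z)) = 𝓔.ρ g (-((2:ℝ) •
        ((Nat.factorial 2 : ℝ)⁻¹ • 𝓔.ι ((M.actg (conjX g (X i)) ^ 2) z)))) := by
      rw [smul_smul]
      simp
    rw [h4]
    refine h3.congr fun t => ?_
    have h5 : ∀ t : ℝ, 𝓔.ρ (X i (Multiplicative.ofAdd t)) (𝓔.ρ g (𝓔.ι z)) =
        𝓔.ρ g (𝓔.ρ (conjX g (X i) (Multiplicative.ofAdd t)) (𝓔.ι z)) := by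
      intro t
      rw [← mul_apply_eq_comp, ← mul_apply_eq_comp, ← map_mul, ← map_mul,
        conjX_apply]
      congr 2
      group
    simp only [Function.comp_apply]
    rw [h5, h5]
    simp only [← Complex.coe_smul, map_smul, map_sub, pow_zero, Module.End.one_apply,
      Nat.factorial, Nat.cast_one, inv_one, one_smul, Complex.ofReal_ofNat]
  have h6 := tendsto_finsetSum Finset.univ fun i _ => h1 i
  have h7 : ∑ i, 𝓔.ρ g (𝓔.ι (-((M.actg (conjX g (X i))) ^ 2) z)) =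
      𝓔.ρ g (𝓔.ι (casimir M (fun i => conjX g (X i)) z)) := by
    rw [← map_sum, ← map_sum, casimir, LinearMap.neg_apply, LinearMap.sum_apply]
    simp
  rw [h7] at h6
  refine h6.congr fun t => ?_
  rw [cop, Finset.smul_sum]

theorem tendsto_cop_one [IsTopologicalGroup G] (z : V) :
    Tendsto (fun h => 𝓔.cop X h (𝓔.ι z)) (𝓝[≠] 0) (𝓝 (𝓔.ι (casimir M X z))) := by
  simpa [conjX_one] using 𝓔.tendsto_cop X 1 z

include 𝓔 in
/-- K-invariant seminorms on V are accretive -/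
theorem acc [IsTopologicalGroup G] (hX : ∀ i t, X i t ∈ K) (q : Seminorm ℂ V)
    (hq : ∀ k v, q (M.actK k v) = q v) {τ : ℝ} (hτ : 0 ≤ τ) (u : V) :
    q u ≤ q (u + (τ : ℂ) • casimir M X u) := by
  let kp : Fin m → ℝ → K := fun i h => ⟨X i (Multiplicative.ofAdd h), hX i _⟩
  let Ch : ℝ → V := fun h => (((h ^ 2)⁻¹ : ℝ) : ℂ) • ∑ i, ((2:ℂ) • u - M.actK (kp i h) u -
    M.actK (kp i (-h)) u)
  have hCh : ∀ h, 𝓔.ι (Ch h) = 𝓔.cop X h (𝓔.ι u) := by
    intro h
    simp only [Ch, cop, map_smul, map_sum, map_sub, 𝓔.map_actK, kp]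
  have h1 : ∀ h, q u ≤ q (u + (τ : ℂ) • Ch h) := by
    intro h
    have := acc_general q (fun i => M.actK (kp i h)) (fun i => M.actK (kp i (-h)))
      (fun i u => (hq _ u).le) (fun i u => (hq _ u).le) (β := τ * (h ^ 2)⁻¹) (by positivity) u
    rwa [Complex.ofReal_mul, mul_smul] at this
  have hfin := 𝓔.finite_orb u
  obtain ⟨B, hB0, hB⟩ := 𝓔.seminorm_bound (orb M u) (q.comp (orb M u).subtype)
  have hmemC : casimir M X u ∈ orb M u := by
    rw [casimir, LinearMap.neg_apply, LinearMap.sum_apply]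
    refine Submodule.neg_mem _ (Submodule.sum_mem _ fun i _ => ?_)
    rw [pow_two, Module.End.mul_apply]
    exact 𝓔.actg_mem_orb (hX i) (𝓔.actg_mem_orb (hX i) (self_mem_orb u))
  have hmem : ∀ h, Ch h ∈ orb M u := by
    intro h
    refine Submodule.smul_mem _ _ (Submodule.sum_mem _ fun i _ => ?_)
    exact Submodule.sub_mem _ (Submodule.sub_mem _ (Submodule.smul_mem _ _ (self_mem_orb u))
      (actK_mem_orb _ (self_mem_orb u))) (actK_mem_orb _ (self_mem_orb u))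
  have h2 : ∀ h, q u ≤ q (u + (τ : ℂ) • casimir M X u) +
      τ * (B * ‖𝓔.cop X h (𝓔.ι u) - 𝓔.ι (casimir M X u)‖) := by
    intro h
    have h3 : u + (τ : ℂ) • Ch h = (u + (τ : ℂ) • casimir M X u) +
      (τ : ℂ) • (Ch h - casimir M X u) := by
      rw [smul_sub]; abel
    have h4 := hB ⟨Ch h - casimir M X u, Submodule.sub_mem _ (hmem h) hmemC⟩
    simp only [Seminorm.comp_apply, Submodule.subtype_apply, map_sub, hCh] at h4
    calc q u ≤ q (u + (τ : ℂ) • Ch h) := h1 h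
      _ ≤ q (u + (τ : ℂ) • casimir M X u) + q ((τ : ℂ) • (Ch h - casimir M X u)) := by
        rw [h3]; exact map_add_le_add q _ _
      _ ≤ _ := by
        rw [map_smul_eq_mul, Complex.norm_real, Real.norm_eq_abs, abs_of_nonneg hτ]
        gcongr
  have h5 := ((tendsto_iff_norm_sub_tendsto_zero.1 (𝓔.tendsto_cop_one X u)).const_mul B).const_mul τ
  have h6 := h5.const_add (q (u + (τ : ℂ) • casimir M X u))
  rw [mul_zero, mul_zero, add_zero] at h6
  exact ge_of_tendsto h6 (Eventually.of_forall h2)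

include 𝓔 in
theorem mem_span_eigen [IsTopologicalGroup G] [CompactSpace K] (hX : ∀ i t, X i t ∈ K) (v : V) :
    v ∈ Submodule.span ℂ {u : V | ∃ c : ℝ, 0 ≤ c ∧ casimir M X u = (c : ℂ) • u} := by
  have hfin := 𝓔.finite_orb v
  let π : K →* (orb M v →ₗ[ℂ] orb M v) :=
    { toFun := fun k => (M.actK k).restrict (fun u hu => actK_mem_orb k hu)
      map_one' := by ext u; simp [LinearMap.restrict_apply]
      map_mul' := by intro k k'; ext u; simp [LinearMap.restrict_apply] }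
  have hπ : ∀ k (u : orb M v), (π k u : V) = M.actK k u := fun k u => rfl
  let A : Fin m → (orb M v →ₗ[ℂ] orb M v) := fun i =>
    (M.actg (X i)).restrict (fun u hu => 𝓔.actg_mem_orb (hX i) hu)
  have hA0 : ∀ i (u : orb M v), (A i u : V) = M.actg (X i) u := fun i u => rfl
  let x : Fin m → ℝ → K := fun i h => ⟨X i (Multiplicative.ofAdd h), hX i _⟩
  have key := diag_of_compact π (fun ξ u => ?_) x (fun i t => ?_) A (fun i ξ u => ?_)
    ⟨v, self_mem_orb v⟩
  · have h1 := Submodule.mem_map_of_mem (f := (orb M v).subtype) key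
    rw [Submodule.map_span] at h1
    refine Submodule.span_mono ?_ h1
    rintro _ ⟨u, ⟨c, hc, hu⟩, rfl⟩
    refine ⟨c, hc, ?_⟩
    have h2 := congr_arg (orb M v).subtype hu
    simp only [LinearMap.neg_apply, LinearMap.sum_apply, map_neg, map_sum, map_smul,
      Submodule.subtype_apply, pow_two, Module.End.mul_apply, hA0] at h2
    rw [casimir, LinearMap.neg_apply, LinearMap.sum_apply]
    simp only [pow_two, Module.End.mul_apply, Submodule.subtype_apply]
    exact h2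
  · rw [continuous_iff_continuousAt]
    intro k₀
    refine 𝓔.tendsto_functional (orb M v) ξ ?_
    simp only [hπ, 𝓔.map_actK]
    have h1 : Continuous fun k : K => 𝓔.ρ (k : G) (𝓔.ι u) :=
      𝓔.continuous_ρ.comp (continuous_subtype_val.prodMk continuous_const)
    exact h1.tendsto k₀
  · apply Subtype.ext
    simp only [x, ofAdd_neg, map_inv, InvMemClass.coe_inv]
  · rw [hasDerivAt_iff_tendsto_slope_zero]
    have h1 := (𝓔.hasDerivAt_actg (X i) u).tendsto_slope_zero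
    have h2 : (fun t : ℝ => t⁻¹ • (ξ (π (x i (0 + t)) u) - ξ (π (x i 0) u))) =
        fun t : ℝ => ξ (((t⁻¹ : ℝ) : ℂ) • (π (x i (0 + t)) u - π (x i 0) u)) := by
      ext t
      rw [map_smul, map_sub, Complex.coe_smul]
    rw [h2]
    refine 𝓔.tendsto_functional (orb M v) ξ ?_
    refine h1.congr fun t => ?_
    rw [Submodule.coe_smul, Submodule.coe_sub, map_smul, map_sub, hπ, hπ, 𝓔.map_actK, 𝓔.map_actK,
      Complex.coe_smul]

include 𝓔 in
theorem exists_basis [IsTopologicalGroup G] [CompactSpace K] (hX : ∀ i t, X i t ∈ K) :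
    ∃ (κ : Type v) (b : Module.Basis κ ℂ V) (c : κ → ℝ), (∀ i, 0 ≤ c i) ∧
      casimir M X = fc b c (fun x => x) := by
  classical
  let S : {c : ℝ // 0 ≤ c} → Submodule ℂ V := fun c =>
    Module.End.eigenspace (casimir M X) ((c : ℝ) : ℂ)
  have hind : iSupIndep S := by
    refine (Module.End.eigenspaces_iSupIndep (casimir M X)).comp (f := fun c : {c : ℝ // 0 ≤ c} => ((c : ℝ) : ℂ)) ?_
    exact Complex.ofReal_injective.comp Subtype.coe_injective
  have htop : iSup S = ⊤ := by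
    rw [eq_top_iff]
    intro v _
    refine (Submodule.span_le.2 ?_) (𝓔.mem_span_eigen X hX v)
    rintro u ⟨c, hc, hu⟩
    refine Submodule.mem_iSup_of_mem (⟨c, hc⟩ : {c : ℝ // 0 ≤ c}) ?_
    exact Module.End.mem_eigenspace_iff.2 hu
  have hint : DirectSum.IsInternal S :=
    DirectSum.isInternal_submodule_of_iSupIndep_of_iSup_eq_top hind htop
  let bb := hint.collectedBasis fun c => Module.Basis.ofVectorSpace ℂ (S c)
  refine ⟨_, bb, fun a => (a.1 : ℝ), fun a => a.1.2, ?_⟩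
  refine bb.ext fun a => ?_
  rw [fc_basis]
  exact Module.End.mem_eigenspace_iff.1 (hint.collectedBasis_mem _ a)

end Globalization

end Pool.Agent.H1.SobAvg
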